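import Pool.Agent.N793.Fab.Disc

set_option autoImplicit false

/-!
# The chart of a half-plane
-/

namespace Pool.Agent.N793.Fab

open Filter Topology Metric Set
open scoped ComplexConjugate

/-- the unit disc is mapped onto the half-plane `Re s > c`, and `0` to `α` -/
noncomputable def mob (c α : ℝ) (z : ℂ) : ℂ := c + (α - c) * (1 + z) / (1 - z)

/-- the inverse of `mob` -/
noncomputable def inv' (c α : ℝ) (s : ℂ) : ℂ := (s - α) / (s + α - 2 * c)

/-- the centre of the disc which is mapped to the half-plane `Re s > e` -/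
noncomputable def ctr (c e α : ℝ) : ℝ := (e - c) / (α + e - 2 * c)

variable {c e α : ℝ}

theorem ctr_nonneg (hce : c < e) (heα : e < α) : 0 ≤ ctr c e α :=
  div_nonneg (by linarith) (by linarith)

theorem ctr_lt (hce : c < e) (heα : e < α) : ctr c e α < 1 / 2 := by
  unfold ctr
  rw [div_lt_div_iff₀ (by linarith) (by norm_num)]
  linarith

theorem one_sub_ne {z : ℂ} (hz : z ∈ ball (0 : ℂ) 1) : 1 - z ≠ 0 := by
  intro h
  have : z = 1 := (sub_eq_zero.mp h).symm
  subst this
  simp at hz

theorem mob_diff : DifferentiableOn ℂ (mob c α) (ball 0 1) := by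
  intro z hz
  have h1 := one_sub_ne hz
  apply DifferentiableAt.differentiableWithinAt
  unfold mob
  fun_prop (disch := exact h1)

theorem mob_re {z : ℂ} (hz : z ∈ ball (0 : ℂ) 1) :
    (mob c α z).re = c + (α - c) * (1 - Complex.normSq z) / Complex.normSq (1 - z) := by
  have h1 := one_sub_ne hz
  have h2 : Complex.normSq (1 - z) ≠ 0 := (Complex.normSq_pos.mpr h1).ne'
  have h3 : mob c α z = (c : ℂ) + ((α - c : ℝ) : ℂ) * ((1 + z) * conj (1 - z)) /
      ((Complex.normSq (1 - z) : ℝ) : ℂ) := by
    unfold mob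
    rw [← Complex.mul_conj]
    have h4 : conj (1 - z) ≠ 0 := (map_ne_zero _).mpr h1
    push_cast
    field_simp
  rw [h3, Complex.add_re, Complex.ofReal_re, Complex.div_ofReal_re, Complex.re_ofReal_mul]
  congr 3
  simp only [Complex.mul_re, Complex.add_re, Complex.add_im, Complex.conj_re, Complex.conj_im,
    Complex.sub_re, Complex.sub_im, Complex.one_re, Complex.one_im, Complex.normSq_apply]
  ring

theorem mob_gt (hcα : c < α) {z : ℂ} (hz : z ∈ ball (0 : ℂ) 1) : c < (mob c α z).re := by
  rw [mob_re hz]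
  have h1 : 0 < Complex.normSq (1 - z) := Complex.normSq_pos.mpr (one_sub_ne hz)
  have h2 : Complex.normSq z < 1 := by
    rw [mem_ball_zero_iff] at hz
    rw [Complex.normSq_eq_norm_sq]
    nlinarith [norm_nonneg z]
  have : 0 < (α - c) * (1 - Complex.normSq z) / Complex.normSq (1 - z) :=
    div_pos (mul_pos (by linarith) (by linarith)) h1
  linarith

theorem mem_iff (hce : c < e) (heα : e < α) {z : ℂ} (hz : z ∈ ball (0 : ℂ) 1) :
    e < (mob c α z).re ↔ z ∈ ball ((ctr c e α : ℝ) : ℂ) (1 - ctr c e α) := by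
  have h1 : 0 < Complex.normSq (1 - z) := Complex.normSq_pos.mpr (one_sub_ne hz)
  have hD : 0 < α + e - 2 * c := by linarith
  have hp := ctr_lt hce heα
  have hpe : ctr c e α * (α + e - 2 * c) = e - c := by
    unfold ctr
    exact div_mul_cancel₀ _ hD.ne'
  set p := ctr c e α with hpdef
  rw [mob_re hz, mem_ball, Complex.dist_eq]
  have h2 : e < c + (α - c) * (1 - Complex.normSq z) / Complex.normSq (1 - z) ↔
      (e - c) * Complex.normSq (1 - z) < (α - c) * (1 - Complex.normSq z) := by
    rw [← sub_lt_iff_lt_add', lt_div_iff₀ h1]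
  rw [h2]
  have h3 : ‖z - (p : ℂ)‖ < 1 - p ↔ Complex.normSq (z - (p : ℂ)) < (1 - p) ^ 2 := by
    rw [Complex.normSq_eq_norm_sq]
    constructor
    · intro h
      exact pow_lt_pow_left₀ h (norm_nonneg _) two_ne_zero
    · intro h
      exact lt_of_pow_lt_pow_left₀ 2 (by linarith) h
  rw [h3]
  have h4 : (α + e - 2 * c) * ((1 - p) ^ 2 - Complex.normSq (z - (p : ℂ))) =
      (α - c) * (1 - Complex.normSq z) - (e - c) * Complex.normSq (1 - z) := by
    simp only [Complex.normSq_apply, Complex.sub_re, Complex.sub_im, Complex.one_re,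
      Complex.one_im, Complex.ofReal_re, Complex.ofReal_im]
    linear_combination (-2 + 2 * z.re) * hpe
  constructor
  · intro h
    have h5 : 0 < (α + e - 2 * c) * ((1 - p) ^ 2 - Complex.normSq (z - (p : ℂ))) := by
      rw [h4]; linarith
    have := (mul_pos_iff_of_pos_left hD).mp h5
    linarith
  · intro h
    have h5 : 0 < (α + e - 2 * c) * ((1 - p) ^ 2 - Complex.normSq (z - (p : ℂ))) :=
      mul_pos hD (by linarith)
    rw [h4] at h5
    linarith

theorem den_ne (hcα : c < α) {s : ℂ} (hs : c < s.re) : s + α - 2 * c ≠ 0 := by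
  intro h
  have := congrArg Complex.re h
  simp at this
  linarith

theorem inv_mem (hcα : c < α) {s : ℂ} (hs : c < s.re) : inv' c α s ∈ ball (0 : ℂ) 1 := by
  rw [mem_ball_zero_iff]
  unfold inv'
  rw [norm_div, div_lt_one (norm_pos_iff.mpr (den_ne hcα hs))]
  have h1 : Complex.normSq (s - α) < Complex.normSq (s + α - 2 * c) := by
    simp only [Complex.normSq_apply, Complex.sub_re, Complex.sub_im, Complex.add_re,
      Complex.add_im, Complex.ofReal_re, Complex.ofReal_im, Complex.mul_re, Complex.mul_im,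
      Complex.re_ofNat, Complex.im_ofNat]
    nlinarith [mul_pos (sub_pos.mpr hs) (sub_pos.mpr hcα)]
  rw [Complex.normSq_eq_norm_sq, Complex.normSq_eq_norm_sq] at h1
  exact lt_of_pow_lt_pow_left₀ 2 (norm_nonneg _) h1

theorem mob_inv (hcα : c < α) {s : ℂ} (hs : c < s.re) : mob c α (inv' c α s) = s := by
  have h1 := den_ne hcα hs
  have h2 := one_sub_ne (inv_mem hcα hs)
  have h3 : (α : ℂ) - c ≠ 0 := by
    rw [sub_ne_zero]
    exact_mod_cast hcα.ne'
  unfold mob
  rw [← sub_eq_zero]
  unfold inv' at h2 ⊢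
  have h4 : 1 - (s - α) / (s + α - 2 * c) = 2 * (α - c) / (s + α - 2 * c) := by
    field_simp
    ring
  have h5 : 1 + (s - α) / (s + α - 2 * c) = 2 * (s - c) / (s + α - 2 * c) := by
    field_simp
    ring
  rw [h4, h5]
  clear h2 h4 h5
  generalize s + α - 2 * c = D at h1 ⊢
  field_simp
  ring

theorem inv_mob (hcα : c < α) {z : ℂ} (hz : z ∈ ball (0 : ℂ) 1) : inv' c α (mob c α z) = z := by
  have h1 := one_sub_ne hz
  have h2 := den_ne hcα (mob_gt hcα hz)
  have h3 : (α : ℂ) - c ≠ 0 := by
    rw [sub_ne_zero]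
    exact_mod_cast hcα.ne'
  unfold inv'
  rw [div_eq_iff h2]
  unfold mob
  field_simp
  ring

theorem mob_conj (z : ℂ) : mob c α (conj z) = conj (mob c α z) := by
  unfold mob
  simp only [map_add, map_mul, map_div₀, map_sub, Complex.conj_ofReal, map_one]

theorem inv_diff (hcα : c < α) : DifferentiableOn ℂ (inv' c α) {s : ℂ | c < s.re} := by
  intro s hs
  have h1 := den_ne hcα hs
  apply DifferentiableAt.differentiableWithinAt
  unfold inv'
  fun_prop (disch := exact h1)

end Pool.Agent.N793.Fab
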