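import Mathlib

set_option autoImplicit false

/-!
# Coefficients of power series of holomorphic functions
-/

namespace Pool.Agent.N793.Fab

open Filter Topology Metric

theorem coeff_unique {c d : ℕ → ℂ} {f : ℂ → ℂ}
    (hc : ∀ᶠ z in 𝓝 (0 : ℂ), HasSum (fun n => c n * z ^ n) (f z))
    (hd : ∀ᶠ z in 𝓝 (0 : ℂ), HasSum (fun n => d n * z ^ n) (f z)) : c = d := by
  have key : ∀ e : ℕ → ℂ, (∀ᶠ z in 𝓝 (0 : ℂ), HasSum (fun n => e n * z ^ n) (f z)) →
      HasFPowerSeriesAt f (FormalMultilinearSeries.ofScalars ℂ e) 0 := by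
    intro e he
    rw [hasFPowerSeriesAt_iff]
    filter_upwards [he] with z hz
    simp only [zero_add, FormalMultilinearSeries.coeff_ofScalars, smul_eq_mul]
    simpa only [mul_comm] using hz
  have h := (key c hc).eq_formalMultilinearSeries (key d hd)
  funext n
  have h2 := congrArg (fun p => FormalMultilinearSeries.coeff p n) h
  simpa [FormalMultilinearSeries.coeff_ofScalars] using h2

theorem taylor_sum {f : ℂ → ℂ} {r : ℝ} (hf : DifferentiableOn ℂ f (ball 0 r)) {z : ℂ}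
    (hz : z ∈ ball (0 : ℂ) r) :
    HasSum (fun n : ℕ => ((n.factorial : ℂ)⁻¹ * iteratedDeriv n f 0) * z ^ n) (f z) := by
  have h := Complex.hasSum_taylorSeries_on_ball hf hz
  have e : (fun n : ℕ => ((n.factorial : ℂ)⁻¹ * iteratedDeriv n f 0) * z ^ n) =
      fun n : ℕ => (n.factorial : ℂ)⁻¹ • (z - 0) ^ n • iteratedDeriv n f 0 := by
    funext n
    rw [sub_zero, smul_eq_mul, smul_eq_mul]
    ring
  rw [e]
  exact h

theorem coeff_taylor {c : ℕ → ℂ} {f : ℂ → ℂ} {r : ℝ} (hr : 0 < r)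
    (hf : DifferentiableOn ℂ f (ball 0 r))
    (hc : ∀ᶠ z in 𝓝 (0 : ℂ), HasSum (fun n => c n * z ^ n) (f z)) (n : ℕ) :
    c n = (n.factorial : ℂ)⁻¹ * iteratedDeriv n f 0 := by
  have h := coeff_unique hc (d := fun n => (n.factorial : ℂ)⁻¹ * iteratedDeriv n f 0) (by
    filter_upwards [ball_mem_nhds (0 : ℂ) hr] with z hz
    exact taylor_sum hf hz)
  exact congrFun h n

theorem sum_ball {c : ℕ → ℂ} {f : ℂ → ℂ} {r : ℝ} (hr : 0 < r)
    (hf : DifferentiableOn ℂ f (ball 0 r))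
    (hc : ∀ᶠ z in 𝓝 (0 : ℂ), HasSum (fun n => c n * z ^ n) (f z)) {z : ℂ}
    (hz : z ∈ ball (0 : ℂ) r) : HasSum (fun n => c n * z ^ n) (f z) := by
  simp only [coeff_taylor hr hf hc]
  exact taylor_sum hf hz

/-- Cauchy's estimate -/
theorem coeff_bound {c : ℕ → ℂ} {f : ℂ → ℂ} {r r' : ℝ} (hr : 0 < r) (hrr : r < r')
    (hf : DifferentiableOn ℂ f (ball 0 r'))
    (hc : ∀ᶠ z in 𝓝 (0 : ℂ), HasSum (fun n => c n * z ^ n) (f z)) :
    ∃ M : ℝ, 0 ≤ M ∧ ∀ n, ‖c n‖ ≤ M / r ^ n := by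
  have hcomp : IsCompact (sphere (0 : ℂ) r) := isCompact_sphere _ _
  have hcont : ContinuousOn f (sphere 0 r) := hf.continuousOn.mono fun z hz => by
    rw [mem_sphere] at hz; rw [mem_ball, hz]; exact hrr
  obtain ⟨M, hM⟩ := hcomp.exists_bound_of_continuousOn hcont
  have hM0 : 0 ≤ M := by
    have := hM (r : ℂ) (by simp [abs_of_pos hr])
    exact (norm_nonneg _).trans this
  refine ⟨M, hM0, fun n => ?_⟩
  have h1 := Complex.norm_iteratedDeriv_le_of_forall_mem_sphere_norm_le n hr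
    (DifferentiableOn.diffContOnCl (by
      refine hf.mono ?_
      intro z hz
      have := closure_ball_subset_closedBall hz
      rw [mem_closedBall] at this
      rw [mem_ball]
      linarith)) hM
  rw [coeff_taylor (hr.trans hrr) hf hc n, norm_mul, norm_inv, Complex.norm_natCast]
  have hp : (0 : ℝ) < n.factorial := by exact_mod_cast Nat.factorial_pos n
  calc (n.factorial : ℝ)⁻¹ * ‖iteratedDeriv n f 0‖
      ≤ (n.factorial : ℝ)⁻¹ * (n.factorial * M / r ^ n) :=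
        mul_le_mul_of_nonneg_left h1 (by positivity)
    _ = M / r ^ n := by field_simp

/-- exponential sums as power series -/
theorem exp_sum {a : ℕ → ℝ} {τ : ℝ} (hτ : 0 < τ)
    (ha : Summable fun n : ℕ => |a n| * Real.exp (n * τ)) {t : ℂ} (ht : ‖t‖ ≤ τ) :
    HasSum (fun m : ℕ => (((∑' n : ℕ, a n * (n : ℝ) ^ m : ℝ) : ℂ) / (m.factorial : ℂ)) * t ^ m)
      (∑' n : ℕ, (a n : ℂ) * Complex.exp (n * t)) := by
  set g : ℕ × ℕ → ℂ := fun p => (a p.1 : ℂ) * (((p.1 : ℂ) * t) ^ p.2 / (p.2.factorial : ℂ)) with hg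
  have hexp : ∀ (n : ℕ), HasSum (fun m : ℕ => g (n, m)) ((a n : ℂ) * Complex.exp (n * t)) := by
    intro n
    have h1 := (NormedSpace.expSeries_div_hasSum_exp (𝔸 := ℂ) ((n : ℂ) * t)).mul_left (a n : ℂ)
    rw [← Complex.exp_eq_exp_ℂ] at h1
    exact h1
  have hnorm : Summable fun p => ‖g p‖ := by
    rw [summable_prod_of_nonneg (fun p => norm_nonneg _)]
    have hn : ∀ n m : ℕ, ‖g (n, m)‖ = |a n| * (((n : ℝ) * ‖t‖) ^ m / m.factorial) := by
      intro n m
      simp only [hg]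
      rw [norm_mul, norm_div, norm_pow, norm_mul, Complex.norm_natCast, Complex.norm_natCast,
        Complex.norm_real, Real.norm_eq_abs]
    have hexpr : ∀ n : ℕ, HasSum (fun m : ℕ => ‖g (n, m)‖) (|a n| * Real.exp (n * ‖t‖)) := by
      intro n
      simp only [hn]
      have h1 := (NormedSpace.expSeries_div_hasSum_exp (𝔸 := ℝ) ((n : ℝ) * ‖t‖)).mul_left (|a n|)
      rw [← Real.exp_eq_exp_ℝ] at h1
      exact h1
    refine ⟨fun n => (hexpr n).summable, ?_⟩
    simp only [fun n => (hexpr n).tsum_eq]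
    refine Summable.of_nonneg_of_le (fun n => by positivity) (fun n => ?_) ha
    apply mul_le_mul_of_nonneg_left _ (abs_nonneg _)
    apply Real.exp_le_exp.mpr
    exact mul_le_mul_of_nonneg_left ht (Nat.cast_nonneg n)
  have hs : Summable g := hnorm.of_norm
  have h1 := hs.hasSum.prod_fiberwise hexp
  have hm : ∀ m : ℕ, HasSum (fun n : ℕ => g (n, m))
      ((((∑' n : ℕ, a n * (n : ℝ) ^ m : ℝ) : ℂ) / (m.factorial : ℂ)) * t ^ m) := by
    intro m
    have hsm : Summable fun n : ℕ => a n * (n : ℝ) ^ m := by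
      refine Summable.of_norm_bounded (ha.mul_left ((m.factorial : ℝ) / τ ^ m)) (fun n => ?_)
      rw [norm_mul, Real.norm_eq_abs, Real.norm_eq_abs,
        abs_of_nonneg (show 0 ≤ (n : ℝ) ^ m by positivity)]
      have h3 := Real.pow_div_factorial_le_exp ((n : ℝ) * τ) (by positivity) m
      have hp : (0 : ℝ) < m.factorial := by exact_mod_cast Nat.factorial_pos m
      rw [div_le_iff₀ hp, mul_pow] at h3
      have h4 : (n : ℝ) ^ m ≤ (m.factorial : ℝ) / τ ^ m * Real.exp (n * τ) := by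
        rw [div_mul_eq_mul_div, le_div_iff₀ (by positivity)]
        linarith
      calc |a n| * (n : ℝ) ^ m ≤ |a n| * ((m.factorial : ℝ) / τ ^ m * Real.exp (n * τ)) :=
            mul_le_mul_of_nonneg_left h4 (abs_nonneg _)
        _ = _ := by ring
    have h5 : HasSum (fun n : ℕ => ((a n * (n : ℝ) ^ m : ℝ) : ℂ))
        ((∑' n : ℕ, a n * (n : ℝ) ^ m : ℝ) : ℂ) := Complex.hasSum_ofReal.mpr hsm.hasSum
    have h6 := h5.mul_right (t ^ m / (m.factorial : ℂ))
    have e1 : (fun n : ℕ => g (n, m)) =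
        fun n : ℕ => ((a n * (n : ℝ) ^ m : ℝ) : ℂ) * (t ^ m / (m.factorial : ℂ)) := by
      funext n
      simp only [hg]
      push_cast
      rw [mul_pow]
      ring
    have e2 : (((∑' n : ℕ, a n * (n : ℝ) ^ m : ℝ) : ℂ) / (m.factorial : ℂ)) * t ^ m =
        ((∑' n : ℕ, a n * (n : ℝ) ^ m : ℝ) : ℂ) * (t ^ m / (m.factorial : ℂ)) := by ring
    rw [e1, e2]
    exact h6
  have hs' : HasSum (fun p : ℕ × ℕ => g p.swap) (∑' p, g p) :=
    (Equiv.prodComm ℕ ℕ).hasSum_iff.mpr hs.hasSum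
  have h2 := hs'.prod_fiberwise (fun m => hm m)
  rw [h1.tsum_eq]
  exact h2

end Pool.Agent.N793.Fab
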