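import Pool.Agent.N793.Fab.Func

set_option autoImplicit false

/-!
# Coefficients that are nonnegative outside a set of density zero: the core of the argument
-/

namespace Pool.Agent.N793.Fab

open Finset Real Filter Topology

theorem ev_small (D c : ℝ) (hc : 0 < c) (j : ℕ) :
    ∀ᶠ n : ℕ in atTop, D * (n : ℝ) ^ j * Real.exp (-(c * n)) < 1 := by
  have h1 : Tendsto (fun x : ℝ => x ^ j / Real.exp (c * x)) atTop (𝓝 0) :=
    (isLittleO_pow_exp_pos_mul_atTop j hc).tendsto_div_nhds_zero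
  have h2 : Tendsto (fun x : ℝ => D * (x ^ j / Real.exp (c * x))) atTop (𝓝 (D * 0)) :=
    h1.const_mul D
  rw [mul_zero] at h2
  have h3 := (h2.comp tendsto_natCast_atTop_atTop).eventually (gt_mem_nhds (show (0 : ℝ) < 1 by norm_num))
  filter_upwards [h3] with n hn
  simp only [Function.comp] at hn
  rw [Real.exp_neg]
  calc D * (n : ℝ) ^ j * (Real.exp (c * n))⁻¹ = D * ((n : ℝ) ^ j / Real.exp (c * n)) := by
        rw [div_eq_mul_inv]; ring
    _ < 1 := hn

theorem le_exp_eighth (y : ℝ) (hy : 256 ≤ y) : y ≤ Real.exp (y / 8) := by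
  have h1 : 1 + y / 16 ≤ Real.exp (y / 16) := by
    have := Real.add_one_le_exp (y / 16); linarith
  have h2 : Real.exp (y / 8) = Real.exp (y / 16) * Real.exp (y / 16) := by
    rw [← Real.exp_add]; congr 1; ring
  rw [h2]
  have h3 : (1 + y / 16) * (1 + y / 16) ≤ Real.exp (y / 16) * Real.exp (y / 16) :=
    mul_le_mul h1 h1 (by positivity) (Real.exp_pos _).le
  nlinarith

/-- the tail of the sum -/
theorem tail_term {lam ε C : ℝ} (h3 : 12 * ε ≤ lam)
    {a : ℕ → ℝ} (ha : ∀ n, |a n| ≤ C * Real.exp ((ε - lam) * n))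
    {n k m : ℕ} (hn : 1 ≤ n) (hln : 1 ≤ lam * n) (hk : (k : ℝ) ≤ lam * n + 1)
    (hm : 256 * n < m) {S : Finset ℕ} (hS : ∀ e ∈ S, 1 ≤ e) (hSm : ∀ e ∈ S, e ≤ m)
    (hprod : ∏ e ∈ S, (2 * (m : ℝ) / e) ≤ Real.exp (ε * m)) :
    |a m * ((m : ℝ) ^ k * Q S m)| ≤ C * (n : ℝ) ^ k * Real.exp (-(lam / 2 * m)) := by
  have hC : 0 ≤ C := by
    have := ha 0
    simp at this
    exact (abs_nonneg _).trans this
  have hnr : (1 : ℝ) ≤ n := by exact_mod_cast hn
  have hm1 : 1 ≤ m := by omega
  have hmr : 256 * (n : ℝ) ≤ m := by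
    have : 256 * n ≤ m := hm.le
    exact_mod_cast this
  have hQ : |Q S m| ≤ Real.exp (ε * m) ^ 2 := by
    refine (Q_le m hm1 hS hSm).trans ?_
    apply pow_le_pow_left₀ _ hprod
    apply Finset.prod_nonneg
    intro e _
    positivity
  have hpow : (m : ℝ) ^ k ≤ (n : ℝ) ^ k * Real.exp (lam / 4 * m) := by
    have h1 : (m : ℝ) ≤ n * Real.exp (m / (8 * n)) := by
      have h2 := le_exp_eighth ((m : ℝ) / n) (by rw [le_div_iff₀ (by linarith)]; exact hmr)
      rw [div_le_iff₀ (by linarith)] at h2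
      calc (m : ℝ) ≤ Real.exp ((m : ℝ) / n / 8) * n := h2
        _ = n * Real.exp (m / (8 * n)) := by
            rw [mul_comm]; congr 2; field_simp
    calc (m : ℝ) ^ k ≤ (n * Real.exp (m / (8 * n))) ^ k := pow_le_pow_left₀ (by positivity) h1 k
      _ = (n : ℝ) ^ k * Real.exp (k * (m / (8 * n))) := by rw [mul_pow, ← Real.exp_nat_mul]
      _ ≤ (n : ℝ) ^ k * Real.exp (lam / 4 * m) := by
          apply mul_le_mul_of_nonneg_left _ (by positivity)
          apply Real.exp_le_exp.mpr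
          have h5 : (k : ℝ) / (8 * n) ≤ lam / 4 := by
            rw [div_le_div_iff₀ (by linarith) (by norm_num)]
            nlinarith
          calc (k : ℝ) * (m / (8 * n)) = k / (8 * n) * m := by ring
            _ ≤ lam / 4 * m := mul_le_mul_of_nonneg_right h5 (by positivity)
  rw [abs_mul, abs_mul, abs_of_nonneg (show 0 ≤ (m : ℝ) ^ k by positivity)]
  calc |a m| * ((m : ℝ) ^ k * |Q S m|)
      ≤ (C * Real.exp ((ε - lam) * m)) *
        (((n : ℝ) ^ k * Real.exp (lam / 4 * m)) * Real.exp (ε * m) ^ 2) := by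
        apply mul_le_mul (ha m) _ (by positivity) (by positivity)
        exact mul_le_mul hpow hQ (abs_nonneg _) (by positivity)
    _ = C * (n : ℝ) ^ k * Real.exp ((ε - lam) * m + lam / 4 * m + 2 * (ε * m)) := by
        rw [Real.exp_add, Real.exp_add, ← Real.exp_nat_mul]
        push_cast
        ring
    _ ≤ C * (n : ℝ) ^ k * Real.exp (-(lam / 2 * m)) := by
        apply mul_le_mul_of_nonneg_left _ (by positivity)
        apply Real.exp_le_exp.mpr
        have : (0 : ℝ) ≤ m := Nat.cast_nonneg m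
        nlinarith

theorem summable_of_up {lam : ℝ} (hl : 0 < lam) {a : ℕ → ℝ}
    (hup : ∀ ε > 0, ∃ C, ∀ n : ℕ, |a n| ≤ C * Real.exp ((ε - lam) * n)) (m : ℕ) :
    Summable fun n => a n * (n : ℝ) ^ m := by
  obtain ⟨C, hC⟩ := hup (lam / 2) (by positivity)
  have h0 : Summable fun n : ℕ => (n : ℝ) ^ m * Real.exp (-(lam / 2) * n) := by
    have := Real.summable_pow_mul_exp_neg_nat_mul m (show 0 < lam / 2 by positivity)
    exact this
  apply Summable.of_norm_bounded (h0.mul_left C)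
  intro n
  rw [norm_mul, Real.norm_eq_abs, Real.norm_eq_abs, abs_of_nonneg (show 0 ≤ (n : ℝ) ^ m by positivity)]
  calc |a n| * (n : ℝ) ^ m ≤ (C * Real.exp ((lam / 2 - lam) * n)) * (n : ℝ) ^ m :=
        mul_le_mul_of_nonneg_right (hC n) (by positivity)
    _ = C * ((n : ℝ) ^ m * Real.exp (-(lam / 2) * n)) := by
        have : (lam / 2 - lam) * (n : ℝ) = -(lam / 2) * n := by ring
        rw [this]; ring

/-- the sign of the terms -/
theorem term_nonneg (a : ℕ → ℝ) {N k m : ℕ} (hk : 1 ≤ k) (hm : m ≤ N) :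
    0 ≤ a m * ((m : ℝ) ^ k * Q ((Finset.Icc 1 N).filter fun n => a n < 0) m) := by
  set S := (Finset.Icc 1 N).filter fun n => a n < 0 with hS
  have hS1 : ∀ e ∈ S, 1 ≤ e := by
    intro e he
    rw [hS, Finset.mem_filter, Finset.mem_Icc] at he
    exact he.1.1
  rcases Nat.eq_zero_or_pos m with h0 | hpos
  · subst h0
    have : ((0 : ℕ) : ℝ) ^ k = 0 := by
      rw [Nat.cast_zero]; exact zero_pow (by omega)
    rw [this]; simp
  · by_cases ha : a m < 0
    · have hmem : m ∈ S := by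
        rw [hS, Finset.mem_filter, Finset.mem_Icc]
        exact ⟨⟨hpos, hm⟩, ha⟩
      have := Q_neg hS1 hmem
      apply mul_nonneg_of_nonpos_of_nonpos ha.le
      exact mul_nonpos_of_nonneg_of_nonpos (by positivity) this.le
    · have hmem : m ∉ S := by
        rw [hS, Finset.mem_filter]
        exact fun h => ha h.2
      have := Q_pos hS1 hmem
      exact mul_nonneg (not_lt.mp ha) (mul_nonneg (by positivity) this.le)

/-- the core of the argument: the coefficients `a n` decay exactly like `exp (- lam n)`, are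
nonnegative outside a set of upper density `≤ δ`, and the derivatives at `0` of
`∑ a n exp (n t)` are those of a function holomorphic in a disc of radius `ρ > lam`; this is
impossible if `δ` is small in terms of `lam` and `ρ` -/
theorem core (lam ρ : ℝ) (hl : 0 < lam) (hρ : lam < ρ) : ∃ δ : ℝ, 0 < δ ∧
    ∀ (a : ℕ → ℝ) (M : ℝ),
    (∀ ε > 0, ∃ C, ∀ n : ℕ, |a n| ≤ C * Real.exp ((ε - lam) * n)) →
    (∀ ε > 0, ∃ᶠ n : ℕ in atTop, Real.exp (-((lam + ε) * n)) ≤ |a n|) →
    (∀ᶠ N : ℕ in atTop, (((Finset.Icc 1 N).filter fun n => a n < 0).card : ℝ) ≤ δ * N) →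
    (∀ m : ℕ, |∑' n, a n * (n : ℝ) ^ m| ≤ M * m.factorial / ρ ^ m) → False := by
  have hρ0 : 0 < ρ := hl.trans hρ
  obtain ⟨l1, hl1, hl1ρ⟩ := exists_between hρ
  have hl10 : 0 < l1 := hl.trans hl1
  set η := Real.log (ρ / l1) with hη
  have hη0 : 0 < η := Real.log_pos (by rw [lt_div_iff₀ hl10]; linarith)
  set C1 : ℝ := lam + 513 with hC1
  set C2 : ℝ := 1 + 2 * C1 / ρ with hC2
  have hC1p : 0 < C1 := by positivity
  have hC2p : 0 < C2 := by positivity
  set ε : ℝ := min (lam / 1025) (η * lam / 3074) with hε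
  have hε0 : 0 < ε := lt_min (by positivity) (by positivity)
  have hε1 : 1025 * ε ≤ lam := by
    have : ε ≤ lam / 1025 := min_le_left _ _
    linarith
  have hε2 : 1537 * ε ≤ η * lam / 2 := by
    have : ε ≤ η * lam / 3074 := min_le_right _ _
    linarith
  obtain ⟨δ1, hδ1, h1⟩ := prod_le 2 ε (by norm_num) hε0
  obtain ⟨δ2, hδ2, h2⟩ := prod_le C2 ε hC2p hε0
  set δ := min 1 (min δ1 δ2) with hδ
  have hδ0 : 0 < δ := lt_min one_pos (lt_min hδ1 hδ2)
  have hδd1 : δ ≤ δ1 := (min_le_right _ _).trans (min_le_left _ _)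
  have hδd2 : δ ≤ δ2 := (min_le_right _ _).trans (min_le_right _ _)
  have hδ1' : δ ≤ 1 := min_le_left _ _
  refine ⟨δ, hδ0, fun a M hup hlow hneg hM => ?_⟩
  have hM0 : 0 ≤ M := by
    have := hM 0
    simp at this
    exact (abs_nonneg _).trans this
  obtain ⟨N0, hN0⟩ := eventually_atTop.mp hneg
  obtain ⟨C, hC⟩ := hup ε hε0
  have hC0 : 0 ≤ C := by
    have := hC 0
    simp at this
    exact (abs_nonneg _).trans this
  have hsum := summable_of_up hl hup
  have hgeo : Real.exp (-(lam / 2)) < 1 := by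
    rw [Real.exp_lt_one_iff]; linarith
  set C' : ℝ := C / (1 - Real.exp (-(lam / 2))) with hC'
  have hC'0 : 0 ≤ C' := div_nonneg hC0 (by linarith)
  have ev1 := ev_small (2 * C' * 262144) (126 * lam) (by positivity) 2
  have ev2 := ev_small (524288 * (M * (Real.exp 1 * l1))) (η * lam / 2) (by positivity) 3
  have ev3 : ∀ᶠ n : ℕ in atTop, 1 / (l1 - lam) ≤ n :=
    tendsto_natCast_atTop_atTop.eventually_ge_atTop _
  have ev4 : ∀ᶠ n : ℕ in atTop, 1 / lam ≤ n := tendsto_natCast_atTop_atTop.eventually_ge_atTop _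
  obtain ⟨n, hn, e1, e2, e3, e4, e5, e6⟩ := ((hlow ε hε0).and_eventually
    (ev1.and (ev2.and (ev3.and (ev4.and ((eventually_ge_atTop 1).and
      (eventually_ge_atTop N0))))))).exists
  have hnr : (1 : ℝ) ≤ n := by exact_mod_cast e5
  have hn0 : (0 : ℝ) < n := by linarith
  have hln : 1 ≤ lam * n := by
    rw [div_le_iff₀ hl] at e4; linarith
  set N := 256 * n with hN
  have hNr : (N : ℝ) = 256 * n := by rw [hN]; push_cast; ring
  set k := ⌈lam * n⌉₊ with hk
  have hk1 : lam * n ≤ k := Nat.le_ceil _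
  have hk2 : (k : ℝ) ≤ lam * n + 1 := (Nat.ceil_lt_add_one (by positivity)).le
  have hkpos : 1 ≤ k := by
    have : (1 : ℝ) ≤ k := hln.trans hk1
    exact_mod_cast this
  have hkl1 : (k : ℝ) ≤ l1 * n := by
    rw [div_le_iff₀ (by linarith)] at e3
    linarith [mul_sub (n : ℝ) l1 lam, mul_comm (n : ℝ) l1, mul_comm (n : ℝ) lam]
  set S := (Finset.Icc 1 N).filter fun n => a n < 0 with hS
  have hSc : (S.card : ℝ) ≤ δ * N := hN0 N (by omega)
  have hS1 : ∀ e ∈ S, 1 ≤ e := by
    intro e he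
    rw [hS, Finset.mem_filter, Finset.mem_Icc] at he
    exact he.1.1
  have hSN : ∀ e ∈ S, e ≤ N := by
    intro e he
    rw [hS, Finset.mem_filter, Finset.mem_Icc] at he
    exact he.1.2
  set K := k + 2 * S.card with hK
  have hKle : (K : ℝ) ≤ C1 * n := by
    rw [hK]
    push_cast
    rw [hNr] at hSc
    have hδn : δ * n ≤ 1 * n := mul_le_mul_of_nonneg_right hδ1' hn0.le
    have e7 : δ * (256 * (n : ℝ)) = 256 * (δ * n) := by ring
    have e8 : C1 * n = lam * n + 513 * n := by rw [hC1]; ring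
    rw [e7] at hSc
    rw [e8]
    linarith
  obtain ⟨hs, hb⟩ := func_bound a M ρ hρ0 hsum hM K S hS1
  have hupper := hb k le_rfl
  have hprod2 : ∏ e ∈ S, (1 + 2 * (K : ℝ) / (e * ρ)) ≤ Real.exp (ε * N) := by
    refine le_trans ?_ (h2 N S hS1 (hSc.trans (mul_le_mul_of_nonneg_right hδd2 (by positivity))))
    apply Finset.prod_le_prod
    · intro e _
      positivity
    · intro e he
      have he1 : (1 : ℝ) ≤ e := by exact_mod_cast hS1 e he
      have heN : (e : ℝ) ≤ N := by exact_mod_cast hSN e he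
      have a1 : 1 ≤ (N : ℝ) / e := by rw [le_div_iff₀ (by linarith)]; linarith
      have a2 : 2 * (K : ℝ) / (e * ρ) ≤ 2 * C1 / ρ * (N / e) := by
        have : 2 * (K : ℝ) ≤ 2 * C1 * N := by
          rw [hNr]
          have h0 : 0 ≤ C1 * n := by positivity
          have e9 : 2 * C1 * (256 * (n : ℝ)) = 512 * (C1 * n) := by ring
          rw [e9]; linarith
        calc 2 * (K : ℝ) / (e * ρ) ≤ 2 * C1 * N / (e * ρ) :=
              div_le_div_of_nonneg_right this (by positivity)
          _ = 2 * C1 / ρ * (N / e) := by field_simp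
      calc 1 + 2 * (K : ℝ) / (e * ρ) ≤ N / e + 2 * C1 / ρ * (N / e) := add_le_add a1 a2
        _ = C2 * N / e := by rw [hC2]; ring
  have hprod1 : ∀ s : Finset ℕ, (∀ e ∈ s, 1 ≤ e) → (s.card : ℝ) ≤ δ * N →
      ∏ e ∈ s, (2 * (N : ℝ) / e) ≤ Real.exp (ε * N) := fun s hs1 hsc =>
    h1 N s hs1 (hsc.trans (mul_le_mul_of_nonneg_right hδd1 (by positivity)))
  have hQlow := le_Q hprod1 hε0.le S hSc hS1 hSN n e5 (by omega)
  -- the main term
  set Tot := ∑' m : ℕ, a m * ((m : ℝ) ^ k * Q S m) with hTot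
  have hsplit := (hs k).sum_add_tsum_nat_add (N + 1)
  have hmain : |a n| * ((n : ℝ) ^ k * |Q S n|) ≤
      ∑ m ∈ Finset.range (N + 1), a m * ((m : ℝ) ^ k * Q S m) := by
    have h3 : a n * ((n : ℝ) ^ k * Q S n) ≤
        ∑ m ∈ Finset.range (N + 1), a m * ((m : ℝ) ^ k * Q S m) :=
      Finset.single_le_sum (f := fun m : ℕ => a m * ((m : ℝ) ^ k * Q S m))
        (fun m hm => term_nonneg a hkpos (by
          rw [Finset.mem_range] at hm; omega)) (Finset.mem_range.mpr (by omega))
    have h4 : a n * ((n : ℝ) ^ k * Q S n) = |a n| * ((n : ℝ) ^ k * |Q S n|) := by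
      have h5 := term_nonneg a (N := N) hkpos (show n ≤ N by omega)
      rw [← hS] at h5
      rw [← abs_of_nonneg h5, abs_mul, abs_mul, abs_of_nonneg (show 0 ≤ (n : ℝ) ^ k by positivity)]
    rw [← h4]; exact h3
  have htail : |∑' i : ℕ, a (i + (N + 1)) * (((i + (N + 1) : ℕ) : ℝ) ^ k * Q S ((i + (N + 1) : ℕ) : ℝ))|
      ≤ C' * (n : ℝ) ^ k * Real.exp (-(128 * lam * n)) := by
    have hterm : ∀ i : ℕ,
        |a (i + (N + 1)) * (((i + (N + 1) : ℕ) : ℝ) ^ k * Q S ((i + (N + 1) : ℕ) : ℝ))|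
        ≤ C * (n : ℝ) ^ k * Real.exp (-(128 * lam * n)) * Real.exp (-(lam / 2)) ^ i := by
      intro i
      have hle : N ≤ i + (N + 1) := by omega
      have hcast : (N : ℝ) ≤ ((i + (N + 1) : ℕ) : ℝ) := by exact_mod_cast hle
      have h3 := tail_term (by linarith) hC e5 hln hk2
        (show 256 * n < i + (N + 1) by omega) hS1 (fun e he => (hSN e he).trans hle)
        (h1 (i + (N + 1)) S hS1 (hSc.trans (mul_le_mul hδd1 hcast (by positivity) hδ1.le)))
      refine h3.trans ?_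
      rw [mul_assoc (C * (n : ℝ) ^ k)]
      apply mul_le_mul_of_nonneg_left _ (by positivity)
      rw [← Real.exp_nat_mul, ← Real.exp_add]
      apply Real.exp_le_exp.mpr
      push_cast
      rw [hNr]
      have e9 : -(lam / 2 * ((i : ℝ) + (256 * n + 1))) =
          -(128 * lam * n) + i * (-(lam / 2)) - lam / 2 := by ring
      rw [e9]
      linarith
    have hgs : Summable fun i : ℕ =>
        C * (n : ℝ) ^ k * Real.exp (-(128 * lam * n)) * Real.exp (-(lam / 2)) ^ i :=
      (summable_geometric_of_lt_one (Real.exp_pos _).le hgeo).mul_left _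
    have hsm := Summable.of_nonneg_of_le (fun _ => abs_nonneg _) hterm hgs
    have hnt := norm_tsum_le_tsum_norm (f := fun i : ℕ =>
      a (i + (N + 1)) * (((i + (N + 1) : ℕ) : ℝ) ^ k * Q S ((i + (N + 1) : ℕ) : ℝ))) hsm
    refine hnt.trans ?_
    refine (Summable.tsum_le_tsum hterm hsm hgs).trans ?_
    rw [tsum_mul_left, tsum_geometric_of_lt_one (Real.exp_pos _).le hgeo, hC']
    apply le_of_eq
    rw [div_eq_mul_inv]
    ring
  have hTotlow : |a n| * ((n : ℝ) ^ k * |Q S n|) - C' * (n : ℝ) ^ k * Real.exp (-(128 * lam * n))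
      ≤ Tot := by
    rw [hTot, ← hsplit]
    have := (abs_le.mp htail).1
    linarith
  -- the lower bound
  have hX : Real.exp (-((lam + 1025 * ε) * n)) / (262144 * (n : ℝ) ^ 2) ≤ |a n| * |Q S n| := by
    calc Real.exp (-((lam + 1025 * ε) * n)) / (262144 * (n : ℝ) ^ 2)
        = Real.exp (-((lam + ε) * n)) * (Real.exp (-(4 * ε * N)) / (4 * (N : ℝ) ^ 2)) := by
          rw [mul_div_assoc', ← Real.exp_add, hNr]
          congr 1
          · congr 1; ring
          · ring
      _ ≤ |a n| * |Q S n| := mul_le_mul hn hQlow (by positivity) (abs_nonneg _)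
  have hY : C' * Real.exp (-(128 * lam * n)) ≤
      Real.exp (-((lam + 1025 * ε) * n)) / (262144 * (n : ℝ) ^ 2) / 2 := by
    rw [div_div, le_div_iff₀ (by positivity)]
    have h3 : Real.exp (-(2 * lam * n)) ≤ Real.exp (-((lam + 1025 * ε) * n)) := by
      apply Real.exp_le_exp.mpr
      have e9 : 1025 * ε * n ≤ lam * n := mul_le_mul_of_nonneg_right hε1 hn0.le
      have e10 : (lam + 1025 * ε) * n = lam * n + 1025 * ε * n := by ring
      rw [e10]
      linarith [mul_assoc 2 lam (n : ℝ)]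
    refine le_trans ?_ h3
    have h4 : Real.exp (-(128 * lam * n)) = Real.exp (-(2 * lam * n)) * Real.exp (-(126 * lam * n)) := by
      rw [← Real.exp_add]; congr 1; ring
    rw [h4]
    calc C' * (Real.exp (-(2 * lam * n)) * Real.exp (-(126 * lam * n))) * (262144 * (n : ℝ) ^ 2 * 2)
        = Real.exp (-(2 * lam * n)) * (2 * C' * 262144 * (n : ℝ) ^ 2 * Real.exp (-(126 * lam * n))) := by
          ring
      _ ≤ Real.exp (-(2 * lam * n)) * 1 := mul_le_mul_of_nonneg_left e1.le (Real.exp_pos _).le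
      _ = Real.exp (-(2 * lam * n)) := mul_one _
  have hlow' : (n : ℝ) ^ k * (Real.exp (-((lam + 1025 * ε) * n)) / (262144 * (n : ℝ) ^ 2) / 2)
      ≤ Tot := by
    refine le_trans ?_ hTotlow
    have h3 := mul_le_mul_of_nonneg_left hX (show 0 ≤ (n : ℝ) ^ k by positivity)
    have h4 := mul_le_mul_of_nonneg_left hY (show 0 ≤ (n : ℝ) ^ k by positivity)
    have e9 : |a n| * ((n : ℝ) ^ k * |Q S n|) = (n : ℝ) ^ k * (|a n| * |Q S n|) := by ring
    have e10 : C' * (n : ℝ) ^ k * Real.exp (-(128 * lam * n)) =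
        (n : ℝ) ^ k * (C' * Real.exp (-(128 * lam * n))) := by ring
    have e11 : (n : ℝ) ^ k * (Real.exp (-((lam + 1025 * ε) * n)) / (262144 * (n : ℝ) ^ 2) / 2) =
        (n : ℝ) ^ k * (Real.exp (-((lam + 1025 * ε) * n)) / (262144 * (n : ℝ) ^ 2)) / 2 := by ring
    rw [e9, e10]
    rw [e11] at h4 ⊢
    linarith
  -- the upper bound
  have hup' : Tot ≤ (n : ℝ) ^ k * (M * (Real.exp 1 * l1) * n * Real.exp (-(η * lam * n)) *
      Real.exp (-(lam * n)) * Real.exp (512 * ε * n)) := by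
    refine (le_abs_self _).trans (hupper.trans ?_)
    have h3 : (∏ e ∈ S, (1 + 2 * (K : ℝ) / (e * ρ))) ^ 2 ≤ Real.exp (512 * ε * n) := by
      calc (∏ e ∈ S, (1 + 2 * (K : ℝ) / (e * ρ))) ^ 2 ≤ Real.exp (ε * N) ^ 2 :=
            pow_le_pow_left₀ (Finset.prod_nonneg fun e _ => by positivity) hprod2 2
        _ = Real.exp (512 * ε * n) := by
            rw [← Real.exp_nat_mul, hNr]; congr 1; push_cast; ring
    have h4 : (k.factorial : ℝ) / ρ ^ k ≤
        (n : ℝ) ^ k * (Real.exp 1 * l1 * n * Real.exp (-(η * lam * n)) * Real.exp (-(lam * n))) := by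
      have h5 : (k.factorial : ℝ) ≤ Real.exp 1 * (l1 * n) * ((l1 * n) ^ k * Real.exp (-(lam * n))) := by
        refine (fact_le k hkpos).trans ?_
        apply mul_le_mul _ _ (by positivity) (by positivity)
        · exact mul_le_mul_of_nonneg_left hkl1 (Real.exp_pos _).le
        · apply mul_le_mul (pow_le_pow_left₀ (by positivity) hkl1 k) _ (Real.exp_pos _).le
            (by positivity)
          apply Real.exp_le_exp.mpr
          linarith
      have h6 : (l1 / ρ) ^ k ≤ Real.exp (-(η * lam * n)) := by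
        have h7 : l1 / ρ = Real.exp (-η) := by
          rw [hη, Real.exp_neg, Real.exp_log (by positivity), inv_div]
        rw [h7, ← Real.exp_nat_mul]
        apply Real.exp_le_exp.mpr
        have e9 := mul_le_mul_of_nonneg_left hk1 hη0.le
        have e10 : (k : ℝ) * -η = -(η * k) := by ring
        have e11 : η * lam * n = η * (lam * n) := by ring
        rw [e10, e11]
        linarith
      rw [div_le_iff₀ (by positivity)]
      calc (k.factorial : ℝ) ≤ Real.exp 1 * (l1 * n) * ((l1 * n) ^ k * Real.exp (-(lam * n))) := h5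
        _ = (n : ℝ) ^ k * (Real.exp 1 * l1 * n * (l1 / ρ) ^ k * Real.exp (-(lam * n))) * ρ ^ k := by
            rw [mul_pow, div_pow]; field_simp
        _ ≤ (n : ℝ) ^ k * (Real.exp 1 * l1 * n * Real.exp (-(η * lam * n)) *
              Real.exp (-(lam * n))) * ρ ^ k := by gcongr
    calc M * (k.factorial : ℝ) / ρ ^ k * (∏ e ∈ S, (1 + 2 * (K : ℝ) / (e * ρ))) ^ 2
        = M * ((k.factorial : ℝ) / ρ ^ k) * (∏ e ∈ S, (1 + 2 * (K : ℝ) / (e * ρ))) ^ 2 := by ring
      _ ≤ M * ((n : ℝ) ^ k * (Real.exp 1 * l1 * n * Real.exp (-(η * lam * n)) *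
            Real.exp (-(lam * n)))) * Real.exp (512 * ε * n) := by gcongr
      _ = _ := by ring
  have hfin := le_of_mul_le_mul_left (hlow'.trans hup') (show 0 < (n : ℝ) ^ k by positivity)
  rw [div_div, div_le_iff₀ (by positivity)] at hfin
  have h7 : Real.exp (-(lam * n)) * Real.exp (512 * ε * n) * Real.exp (-(η * lam * n)) ≤
      Real.exp (-((lam + 1025 * ε) * n)) * Real.exp (-(η * lam / 2 * n)) := by
    rw [← Real.exp_add, ← Real.exp_add, ← Real.exp_add]
    apply Real.exp_le_exp.mpr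
    have e9 : 1537 * ε * n ≤ η * lam / 2 * n := mul_le_mul_of_nonneg_right hε2 hn0.le
    have e10 : -((lam + 1025 * ε) * n) + -(η * lam / 2 * n) =
        -(lam * n) + 512 * ε * n + -(η * lam * n) + (η * lam / 2 * n - 1537 * ε * n) := by ring
    rw [e10]
    linarith
  have h8 : Real.exp (-((lam + 1025 * ε) * n)) ≤ Real.exp (-((lam + 1025 * ε) * n)) *
      (524288 * (M * (Real.exp 1 * l1)) * (n : ℝ) ^ 3 * Real.exp (-(η * lam / 2 * n))) := by
    refine hfin.trans ?_
    calc M * (Real.exp 1 * l1) * n * Real.exp (-(η * lam * n)) * Real.exp (-(lam * n)) *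
          Real.exp (512 * ε * n) * (262144 * (n : ℝ) ^ 2 * 2)
        = (524288 * (M * (Real.exp 1 * l1)) * (n : ℝ) ^ 3) *
          (Real.exp (-(lam * n)) * Real.exp (512 * ε * n) * Real.exp (-(η * lam * n))) := by ring
      _ ≤ (524288 * (M * (Real.exp 1 * l1)) * (n : ℝ) ^ 3) *
          (Real.exp (-((lam + 1025 * ε) * n)) * Real.exp (-(η * lam / 2 * n))) :=
          mul_le_mul_of_nonneg_left h7 (by positivity)
      _ = _ := by ring
  have h9 := mul_lt_mul_of_pos_left e2 (Real.exp_pos (-((lam + 1025 * ε) * n)))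
  rw [mul_one] at h9
  linarith

end Pool.Agent.N793.Fab
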