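import Pool.Agent.N793.Fab.Main

set_option autoImplicit false

/-!
# The criterion for the unit disc
-/

namespace Pool.Agent.N793.Fab

open Filter Topology Metric Set

/-- for all large `N` at most `d N` of the integers from `1` to `N` belong to `A` -/
def Rare (A : Set ℕ) (d : ℝ) : Prop := ∀ᶠ N : ℕ in atTop, ((A ∩ Set.Icc 1 N).ncard : ℝ) ≤ d * N

/-- subexponential growth -/
def Sub (c : ℕ → ℝ) : Prop := ∀ ε > 0, ∃ C, ∀ n : ℕ, |c n| ≤ C * Real.exp (ε * n)

theorem ncard_filter (P : ℕ → Prop) [DecidablePred P] (N : ℕ) :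
    ({n | P n} ∩ Set.Icc 1 N).ncard = ((Finset.Icc 1 N).filter P).card := by
  rw [← Set.ncard_coe_finset]
  congr 1
  ext n
  simp only [Set.mem_inter_iff, Set.mem_ofPred_eq, Finset.coe_filter, Finset.mem_Icc, Set.mem_Icc]
  tauto

theorem rare_of_finite {A : Set ℕ} (hA : A.Finite) {δ : ℝ} (hδ : 0 < δ) : Rare A δ := by
  have h1 : ∀ᶠ N : ℕ in atTop, (A.ncard : ℝ) / δ ≤ N :=
    tendsto_natCast_atTop_atTop.eventually_ge_atTop _
  filter_upwards [h1] with N hN
  rw [div_le_iff₀ hδ] at hN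
  have h2 : ((A ∩ Set.Icc 1 N).ncard : ℝ) ≤ A.ncard := by
    exact_mod_cast Set.ncard_le_ncard Set.inter_subset_left hA
  linarith

theorem Sub.neg {c : ℕ → ℝ} (h : Sub c) : Sub (fun n => -c n) := by
  intro ε hε
  obtain ⟨C, hC⟩ := h ε hε
  exact ⟨C, fun n => by rw [abs_neg]; exact hC n⟩

theorem Rare.mono {A B : Set ℕ} {d : ℝ} (h : Rare B d) (hAB : A ⊆ B) : Rare A d := by
  filter_upwards [h] with N hN
  refine le_trans ?_ hN
  exact_mod_cast Set.ncard_le_ncard (Set.inter_subset_inter_left _ hAB)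
    ((Set.finite_Icc 1 N).inter_of_right _)

theorem rare_of_sub {c : ℕ → ℝ} (h : Sub c) (ε : ℝ) (hε : 0 < ε) {δ : ℝ} (hδ : 0 < δ) :
    Rare {n : ℕ | c n < -Real.exp (ε * n)} δ := by
  apply rare_of_finite _ hδ
  obtain ⟨C, hC⟩ := h (ε / 2) (by positivity)
  have h1 : ∀ᶠ n : ℕ in atTop, C ≤ n := tendsto_natCast_atTop_atTop.eventually_ge_atTop _
  have h2 : ∀ᶠ n : ℕ in atTop, C ≤ Real.exp (ε / 2 * n) := by
    have h3 : Tendsto (fun n : ℕ => Real.exp (ε / 2 * n)) atTop atTop :=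
      Real.tendsto_exp_atTop.comp (tendsto_natCast_atTop_atTop.const_mul_atTop (by positivity))
    exact h3.eventually_ge_atTop _
  obtain ⟨N, hN⟩ := eventually_atTop.mp h2
  refine (Set.finite_lt_nat N).subset ?_
  intro n hn
  rw [Set.mem_ofPred_eq] at hn ⊢
  by_contra hge
  have h4 := hN n (not_lt.mp hge)
  have h5 := (abs_le.mp (hC n)).1
  have h6 : C * Real.exp (ε / 2 * n) ≤ Real.exp (ε * n) := by
    calc C * Real.exp (ε / 2 * n) ≤ Real.exp (ε / 2 * n) * Real.exp (ε / 2 * n) :=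
          mul_le_mul_of_nonneg_right h4 (Real.exp_pos _).le
      _ = Real.exp (ε * n) := by rw [← Real.exp_add]; congr 1; ring
  linarith

section

variable {p : ℝ} {c : ℕ → ℝ} {f : ℂ → ℂ}

theorem sub_ball (hp0 : 0 ≤ p) (hp : p < 1 / 2) : ball (p : ℂ) (1 - p) ⊆ ball 0 1 := by
  apply ball_subset_ball'
  rw [dist_zero_right, Complex.norm_real, Real.norm_eq_abs, abs_of_nonneg hp0]
  linarith

theorem zero_mem (hp0 : 0 ≤ p) (hp : p < 1 / 2) : (0 : ℂ) ∈ ball (p : ℂ) (1 - p) := by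
  rw [mem_ball, dist_comm, dist_zero_right, Complex.norm_real, Real.norm_eq_abs,
    abs_of_nonneg hp0]
  linarith

theorem half_ball (hp : p < 1 / 2) :
    ball ((1 / 2 : ℝ) : ℂ) (1 / 2) ⊆ ball (p : ℂ) (1 - p) := by
  apply ball_subset_ball'
  rw [Complex.dist_eq, ← Complex.ofReal_sub, Complex.norm_real, Real.norm_eq_abs,
    abs_of_pos (by linarith)]
  linarith

/-- the admissible proportion -/
noncomputable def dl (r : ℝ) : ℝ :=
  if h : 0 < r ∧ r ≤ 1 / 2 then (one_sided r h.1 h.2).choose else 1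

theorem dl_pos (r : ℝ) : 0 < dl r := by
  unfold dl
  split_ifs with h
  · exact (one_sided r h.1 h.2).choose_spec.1
  · exact one_pos

theorem dl_spec {r : ℝ} (h0 : 0 < r) (h1 : r ≤ 1 / 2) {θ η : ℝ} (hθ : 0 ≤ θ)
    (hθη : 2 * r ≤ η - θ) (h4 : 4 * r ≤ η) (hp0 : 0 ≤ p) (hp : p < 1 / 2)
    (hf : DifferentiableOn ℂ f (ball (p : ℂ) (1 - p)))
    (hc : ∀ᶠ z in 𝓝 (0 : ℂ), HasSum (fun n => (c n : ℂ) * z ^ n) (f z))
    (hr : Rare {n : ℕ | c n < -Real.exp (θ * n)} (dl r)) :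
    ∀ x > η, ∃ C, ∀ n : ℕ, |c n| ≤ C * Real.exp (x * n) := by
  have h : 0 < r ∧ r ≤ 1 / 2 := ⟨h0, h1⟩
  have h2 := (one_sided r h.1 h.2).choose_spec.2 θ η hθ hθη h4 c f _ isOpen_ball
    (convex_ball _ _) (zero_mem hp0 hp) (half_ball hp) hf hc
  apply h2
  unfold Rare dl at hr
  rw [dif_pos h] at hr
  filter_upwards [hr] with N hN
  rw [ncard_filter] at hN
  exact hN

/-- the admissible proportion as a function of `ε` -/
noncomputable def dd (ε : ℝ) : ℝ := dl (min (1 / 2) (ε / 2))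

theorem dd_pos (ε : ℝ) : 0 < dd ε := dl_pos _

/-- one-sided bounds outside a set of small upper density -/
theorem sub_iff_rare (hp0 : 0 ≤ p) (hp : p < 1 / 2)
    (hf : DifferentiableOn ℂ f (ball (p : ℂ) (1 - p)))
    (hc : ∀ᶠ z in 𝓝 (0 : ℂ), HasSum (fun n => (c n : ℂ) * z ^ n) (f z)) :
    Sub c ↔ ∀ ε > 0, Rare {n : ℕ | c n < -Real.exp (ε * n)} (dd ε) := by
  refine ⟨fun h ε hε => rare_of_sub h ε hε (dd_pos ε), fun h x hx => ?_⟩
  have hε : 0 < x / 3 := by positivity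
  have h1 := h (x / 3) hε
  unfold dd at h1
  have h2 : min (1 / 2) (x / 3 / 2) ≤ x / 3 / 2 := min_le_right _ _
  exact dl_spec (θ := x / 3) (η := 2 * (x / 3)) (lt_min (by norm_num) (by positivity))
    (min_le_left _ _) hε.le (by linarith) (by linarith) hp0 hp hf hc h1 x (by linarith)

theorem neg_sum (hc : ∀ᶠ z in 𝓝 (0 : ℂ), HasSum (fun n => (c n : ℂ) * z ^ n) (f z)) :
    ∀ᶠ z in 𝓝 (0 : ℂ), HasSum (fun n => ((-c n : ℝ) : ℂ) * z ^ n) (-f z) := by
  filter_upwards [hc] with z hz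
  have := hz.neg
  simpa only [Complex.ofReal_neg, neg_mul] using this

theorem sub_iff_rare' (hp0 : 0 ≤ p) (hp : p < 1 / 2)
    (hf : DifferentiableOn ℂ f (ball (p : ℂ) (1 - p)))
    (hc : ∀ᶠ z in 𝓝 (0 : ℂ), HasSum (fun n => (c n : ℂ) * z ^ n) (f z)) :
    Sub c ↔ ∀ ε > 0, Rare {n : ℕ | Real.exp (ε * n) < c n} (dd ε) := by
  have h1 := sub_iff_rare (c := fun n => -c n) (f := fun z => -f z) hp0 hp hf.neg (neg_sum hc)
  simp only [neg_lt_neg_iff] at h1
  rw [← h1]
  exact ⟨Sub.neg, fun h => by simpa using h.neg⟩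

/-- continuation to the unit disc -/
theorem sub_iff_ext (hp0 : 0 ≤ p) (hp : p < 1 / 2)
    (hf : DifferentiableOn ℂ f (ball (p : ℂ) (1 - p)))
    (hc : ∀ᶠ z in 𝓝 (0 : ℂ), HasSum (fun n => (c n : ℂ) * z ^ n) (f z)) :
    Sub c ↔ ∃ g : ℂ → ℂ, DifferentiableOn ℂ g (ball 0 1) ∧ EqOn g f (ball (p : ℂ) (1 - p)) := by
  have h0 := zero_mem hp0 hp
  constructor
  · intro h
    have hX : ∀ x : ℝ, 0 < x → ∃ C, ∀ n : ℕ, |c n| ≤ C * Real.exp (x * n) := fun x hx => h x hx
    obtain ⟨h1, h2⟩ := diff_sum hX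
    rw [neg_zero, Real.exp_zero] at h1 h2
    refine ⟨_, h1, ?_⟩
    have h3 : AnalyticOnNhd ℂ (fun z => ∑' n : ℕ, (c n : ℂ) * z ^ n) (ball (p : ℂ) (1 - p)) :=
      (h1.mono (sub_ball hp0 hp)).analyticOnNhd isOpen_ball
    have h4 : AnalyticOnNhd ℂ f (ball (p : ℂ) (1 - p)) := hf.analyticOnNhd isOpen_ball
    refine h3.eqOn_of_preconnected_of_eventuallyEq h4 (convex_ball _ _).isPreconnected h0 ?_
    filter_upwards [hc] with z hz
    exact hz.tsum_eq
  · rintro ⟨g, hg, hgf⟩ ε hε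
    have hcg : ∀ᶠ z in 𝓝 (0 : ℂ), HasSum (fun n => (c n : ℂ) * z ^ n) (g z) := by
      filter_upwards [hc, isOpen_ball.mem_nhds h0] with z hz hz2
      rw [hgf hz2]
      exact hz
    obtain ⟨M, hM0, hM⟩ := coeff_bound (Real.exp_pos (-ε))
      (show Real.exp (-ε) < 1 by rw [Real.exp_lt_one_iff]; linarith) hg hcg
    refine ⟨M, fun n => ?_⟩
    have h1 := hM n
    rw [Complex.norm_real, Real.norm_eq_abs, ← Real.exp_nat_mul] at h1
    refine h1.trans (le_of_eq ?_)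
    rw [div_eq_mul_inv, ← Real.exp_neg]
    congr 2
    ring

/-- continuation without zeros -/
theorem sub_iff_ext_ne (hp0 : 0 ≤ p) (hp : p < 1 / 2)
    (hf : DifferentiableOn ℂ f (ball (p : ℂ) (1 - p))) (hne : ∀ z ∈ ball (p : ℂ) (1 - p), f z ≠ 0)
    (hc : ∀ᶠ z in 𝓝 (0 : ℂ), HasSum (fun n => (c n : ℂ) * z ^ n) (logDeriv f z)) :
    Sub c ↔ ∃ g : ℂ → ℂ, DifferentiableOn ℂ g (ball 0 1) ∧ (∀ z ∈ ball (0 : ℂ) 1, g z ≠ 0) ∧
      EqOn g f (ball (p : ℂ) (1 - p)) := by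
  have h0 := zero_mem hp0 hp
  have hU : IsOpen (ball (p : ℂ) (1 - p)) := isOpen_ball
  have hld : DifferentiableOn ℂ (logDeriv f) (ball (p : ℂ) (1 - p)) :=
    (hf.deriv hU).div hf hne
  rw [sub_iff_ext hp0 hp hld hc]
  constructor
  · rintro ⟨H, hH, hHf⟩
    obtain ⟨P, hP0, hP⟩ := hH.isExactOn_ball.with_val_at 0 0
    refine ⟨fun z => f 0 * Complex.exp (P z), ?_, ?_, ?_⟩
    · intro z hz
      exact ((hP z hz).cexp.const_mul (f 0)).differentiableAt.differentiableWithinAt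
    · intro z hz
      exact mul_ne_zero (hne 0 h0) (Complex.exp_ne_zero _)
    · have hder : ∀ z ∈ ball (p : ℂ) (1 - p),
          HasDerivAt (fun z => f z * Complex.exp (-P z)) 0 z := by
        intro z hz
        have h1 : HasDerivAt f (deriv f z) z :=
          (hf.differentiableAt (hU.mem_nhds hz)).hasDerivAt
        have h2 := h1.mul (hP z (sub_ball hp0 hp hz)).neg.cexp
        have h3 : deriv f z * Complex.exp ((-P) z) + f z * (Complex.exp ((-P) z) * -H z) = 0 := by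
          rw [hHf hz, logDeriv_apply]
          have := hne z hz
          field_simp
          ring
        rw [h3] at h2
        exact h2
      have hconst : ∀ z ∈ ball (p : ℂ) (1 - p), f z * Complex.exp (-P z) = f 0 := by
        intro z hz
        have h3 := (convex_ball (p : ℂ) (1 - p)).is_const_of_fderivWithin_eq_zero (𝕜 := ℂ)
          (f := fun z => f z * Complex.exp (-P z))
          (fun w hw => (hder w hw).differentiableAt.differentiableWithinAt)
          (fun w hw => by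
            rw [fderivWithin_of_isOpen hU hw]
            have := (hder w hw).hasFDerivAt.fderiv
            rw [this]
            ext
            simp) hz h0
        rw [h3, hP0]
        simp
      intro z hz
      have h4 := hconst z hz
      simp only
      rw [← h4, mul_assoc, ← Complex.exp_add]
      simp
  · rintro ⟨g, hg, hg0, hgf⟩
    refine ⟨logDeriv g, (hg.deriv isOpen_ball).div hg hg0, ?_⟩
    intro z hz
    rw [logDeriv_apply, logDeriv_apply, hgf hz]
    congr 1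
    apply Filter.EventuallyEq.deriv_eq
    filter_upwards [hU.mem_nhds hz] with w hw
    exact hgf hw

end

end Pool.Agent.N793.Fab
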