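import Pool.Agent.N793.Fab.HalfPl
import Pool.Agent.N881.GW.M7

set_option autoImplicit false

/-!
# The L-series of an elliptic curve over a number field on `Re s > 3/2`
-/

namespace Pool.Agent.N793.Fab

open NumberField IsDedekindDomain Filter Topology
open scoped ComplexConjugate
open Pool.Agent.TH339.MP (nm elf av S6 lfac)

variable {K : Type} [Field K] [NumberField K]

/-- the Euler product -/
noncomputable def LS (W : HeightOneSpectrum (𝓞 K) → WeierstrassCurve (𝓞 K)) (s : ℂ) : ℂ :=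
  ∏' v : HeightOneSpectrum (𝓞 K), elf W v s

theorem elf_diff (W : HeightOneSpectrum (𝓞 K) → WeierstrassCurve (𝓞 K))
    (v : HeightOneSpectrum (𝓞 K)) {s : ℂ} (hs : 3 / 2 < s.re) : DifferentiableAt ℂ (elf W v) s := by
  have hn : ((nm v : ℕ) : ℂ) ≠ 0 := by
    have := Pool.Agent.N881.GW.nm_ge v
    have h : (nm v : ℝ) ≠ 0 := by linarith
    exact_mod_cast h
  have h1 : Differentiable ℂ fun s : ℂ => 1 - ((av W v : ℝ) : ℂ) * ((nm v : ℕ) : ℂ) ^ (-s) +
      (open Classical in if (W v).Δ ∈ v.asIdeal then 0 else (nm v : ℂ)) *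
        ((nm v : ℕ) : ℂ) ^ (-2 * s) := by
    have e1 : Differentiable ℂ fun s : ℂ => ((nm v : ℕ) : ℂ) ^ (-s) :=
      differentiable_id.neg.const_cpow (Or.inl hn)
    have e2 : Differentiable ℂ fun s : ℂ => ((nm v : ℕ) : ℂ) ^ (-2 * s) :=
      (differentiable_id.const_mul (-2 : ℂ)).const_cpow (Or.inl hn)
    exact ((differentiable_const _).sub (e1.const_mul _)).add (e2.const_mul _)
  have h2 := Pool.Agent.N881.GW.elf_ne W v hs
  refine (h1 s).inv ?_
  intro h3
  apply h2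
  unfold elf lfac
  rw [h3, inv_zero]

theorem elf_conj (W : HeightOneSpectrum (𝓞 K) → WeierstrassCurve (𝓞 K))
    (v : HeightOneSpectrum (𝓞 K)) (s : ℂ) : elf W v (conj s) = conj (elf W v s) := by
  have hcp : ∀ w : ℂ, ((nm v : ℕ) : ℂ) ^ (conj w) = conj (((nm v : ℕ) : ℂ) ^ w) := by
    intro w
    have h := Complex.cpow_conj ((nm v : ℕ) : ℂ) w (by
      rw [Complex.natCast_arg]; exact Real.pi_pos.ne)
    rw [h, Complex.conj_natCast]
  have h1 : ((nm v : ℕ) : ℂ) ^ (-conj s) = conj (((nm v : ℕ) : ℂ) ^ (-s)) := by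
    rw [← hcp, map_neg]
  have h2 : ((nm v : ℕ) : ℂ) ^ (-2 * conj s) = conj (((nm v : ℕ) : ℂ) ^ (-2 * s)) := by
    rw [← hcp, map_mul, map_neg, map_ofNat]
  unfold elf lfac
  rw [map_inv₀, map_add, map_sub, map_one, map_mul, map_mul, h1, h2, Complex.conj_ofReal]
  congr 3
  split_ifs
  · simp
  · simp

theorem LS_conj (W : HeightOneSpectrum (𝓞 K) → WeierstrassCurve (𝓞 K)) {s : ℂ}
    (hs : 3 / 2 < s.re) : LS W (conj s) = conj (LS W s) := by
  obtain ⟨b, _, hb⟩ := Pool.Agent.TH339.MP.elf_hasProd W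
  obtain ⟨E, hE, _⟩ := hb s hs
  unfold LS
  simp only [elf_conj]
  have h1 := hE.map (starRingEnd ℂ) Complex.continuous_conj
  rw [hE.tprod_eq]
  exact h1.tprod_eq

theorem LS_eq (W : HeightOneSpectrum (𝓞 K) → WeierstrassCurve (𝓞 K)) {s : ℂ}
    (hs : 3 / 2 < s.re) :
    LS W s = Pool.Agent.N881.GW.LSp W S6 s * ∏ v ∈ (S6 : Finset (HeightOneSpectrum (𝓞 K))),
      elf W v s := by
  have h0 : ∏ v ∈ (S6 : Finset (HeightOneSpectrum (𝓞 K))), elf W v s ≠ 0 :=
    Finset.prod_ne_zero_iff.2 fun v _ => Pool.Agent.N881.GW.elf_ne W v hs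
  rw [Pool.Agent.N881.GW.LSp_eq W S6 hs, inv_mul_cancel_right₀ h0]
  rfl

theorem LS_ne (W : HeightOneSpectrum (𝓞 K) → WeierstrassCurve (𝓞 K)) {s : ℂ}
    (hs : 3 / 2 < s.re) : LS W s ≠ 0 := by
  obtain ⟨β, h1, _⟩ := Pool.Agent.N881.GW.ec_data W (S := S6)
    (fun v hv => Pool.Agent.TH339.MP.mem_S6 hv)
  rw [LS_eq W hs]
  apply mul_ne_zero
  · have h2 := h1.ne (s - 3 / 2) (by
      rw [Complex.sub_re]
      norm_num
      linarith)
    have h3 : (3 / 2 : ℂ) + (s - 3 / 2) = s := by ring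
    rw [h3] at h2
    exact h2
  · exact Finset.prod_ne_zero_iff.2 fun v _ => Pool.Agent.N881.GW.elf_ne W v hs

theorem LS_diff (W : HeightOneSpectrum (𝓞 K) → WeierstrassCurve (𝓞 K)) :
    DifferentiableOn ℂ (LS W) {s : ℂ | 3 / 2 < s.re} := by
  obtain ⟨β, h1, _⟩ := Pool.Agent.N881.GW.ec_data W (S := S6)
    (fun v hv => Pool.Agent.TH339.MP.mem_S6 hv)
  have hop : IsOpen {s : ℂ | 3 / 2 < s.re} := isOpen_lt continuous_const Complex.continuous_re
  intro s hs
  have hre : 0 < (s - 3 / 2).re := by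
    rw [Complex.sub_re]
    norm_num
    exact hs
  have h2 : DifferentiableAt ℂ (Pool.Agent.N881.GW.LSp W S6) s := by
    have h3 := (h1.der (s - 3 / 2) hre).differentiableAt
    have h4 : DifferentiableAt ℂ (fun s : ℂ => s - 3 / 2) s := by fun_prop
    have h5 := DifferentiableAt.comp s h3 h4
    refine h5.congr_of_eventuallyEq (Eventually.of_forall fun w => ?_)
    have h7 : (3 / 2 : ℂ) + (w - 3 / 2) = w := by ring
    simp only [Function.comp, h7]
    rfl
  have h3 : DifferentiableAt ℂ (fun s => ∏ v ∈ (S6 : Finset (HeightOneSpectrum (𝓞 K))),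
      elf W v s) s := DifferentiableAt.fun_finsetProd fun v _ => elf_diff W v hs
  have h4 := h2.mul h3
  apply DifferentiableAt.differentiableWithinAt
  refine h4.congr_of_eventuallyEq ?_
  filter_upwards [hop.mem_nhds hs] with w hw
  exact LS_eq W hw

end Pool.Agent.N793.Fab
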