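import Mathlib

set_option autoImplicit false

/-!
# Products of distinct integers

The product of `T ≤ δ N` numbers `C N / e`, `e` in a set of integers in `[1, N]`, is at most
`exp (ε N)` if `δ` is small in terms of `ε` and `C`.
-/

namespace Pool.Agent.N793.Fab

open Finset Real

theorem card_fact_le (s : Finset ℕ) : (∀ e ∈ s, 1 ≤ e) → (s.card).factorial ≤ ∏ e ∈ s, e := by
  induction s using Finset.induction_on_max with
  | empty => simp
  | insert a s hlt ih =>
    intro h
    have ha : a ∉ s := fun h' => lt_irrefl _ (hlt a h')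
    rw [Finset.card_insert_of_notMem ha, Finset.prod_insert ha, Nat.factorial_succ]
    have h1 : 1 ≤ a := h a (Finset.mem_insert_self _ _)
    have hc : s.card ≤ a - 1 := by
      have : s ⊆ Finset.Ico 1 a := by
        intro x hx
        rw [Finset.mem_Ico]
        exact ⟨h x (Finset.mem_insert_of_mem hx), hlt x hx⟩
      have := Finset.card_le_card this
      simpa using this
    have hc' : s.card + 1 ≤ a := by omega
    exact Nat.mul_le_mul hc' (ih fun e he => h e (Finset.mem_insert_of_mem he))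

/-- a lower bound for the factorial -/
theorem pow_le_fact (T : ℕ) : (T : ℝ) ^ T ≤ (T.factorial : ℝ) * Real.exp T := by
  have h := Real.pow_div_factorial_le_exp (T : ℝ) (Nat.cast_nonneg T) T
  have hp : (0 : ℝ) < T.factorial := by exact_mod_cast Nat.factorial_pos T
  rw [div_le_iff₀ hp] at h
  linarith

theorem self_le_exp_two_sqrt (y : ℝ) (hy : 0 ≤ y) : y ≤ Real.exp (2 * √y) := by
  have h1 : √y ≤ Real.exp (√y) := by
    have := Real.add_one_le_exp (√y); linarith
  have h0 : 0 ≤ √y := Real.sqrt_nonneg y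
  calc y = √y * √y := (Real.mul_self_sqrt hy).symm
    _ ≤ Real.exp (√y) * Real.exp (√y) := mul_le_mul h1 h1 h0 (Real.exp_pos _).le
    _ = Real.exp (2 * √y) := by rw [← Real.exp_add]; ring_nf

/-- the main estimate for products of distinct integers -/
theorem prod_le (C ε : ℝ) (hC : 0 < C) (hε : 0 < ε) : ∃ δ : ℝ, 0 < δ ∧ ∀ (N : ℕ) (s : Finset ℕ),
    (∀ e ∈ s, 1 ≤ e) → (s.card : ℝ) ≤ δ * N → ∏ e ∈ s, (C * N / e) ≤ Real.exp (ε * N) := by
  refine ⟨ε ^ 2 / (4 * Real.exp 1 * C), by positivity, fun N s hs hcard => ?_⟩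
  set T := s.card with hT
  rcases Nat.eq_zero_or_pos T with h0 | hpos
  · have : s = ∅ := Finset.card_eq_zero.mp (hT ▸ h0)
    subst this
    simp only [Finset.prod_empty]
    exact Real.one_le_exp (by positivity)
  have hN0 : (0 : ℝ) < N := by
    rcases Nat.eq_zero_or_pos N with h | h
    · exfalso
      rw [h] at hcard
      have : (0 : ℝ) < T := by exact_mod_cast hpos
      simp at hcard
      linarith
    · exact_mod_cast h
  have hTr : (0 : ℝ) < T := by exact_mod_cast hpos
  have hprod : (T.factorial : ℝ) ≤ ∏ e ∈ s, (e : ℝ) := by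
    have h := card_fact_le s hs
    rw [← hT] at h
    have h' : ((T.factorial : ℕ) : ℝ) ≤ ((∏ e ∈ s, e : ℕ) : ℝ) := Nat.cast_le.mpr h
    rwa [Nat.cast_prod] at h'
  have hfpos : (0 : ℝ) < T.factorial := by exact_mod_cast Nat.factorial_pos T
  have h1 : ∏ e ∈ s, (C * N / e) = (C * N) ^ T / ∏ e ∈ s, (e : ℝ) := by
    rw [Finset.prod_div_distrib, Finset.prod_const]
  set y : ℝ := Real.exp 1 * C * N / T with hy
  have hypos : 0 < y := by positivity
  have h2 : (C * N) ^ T / ∏ e ∈ s, (e : ℝ) ≤ y ^ T := by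
    calc (C * N) ^ T / ∏ e ∈ s, (e : ℝ) ≤ (C * N) ^ T / T.factorial :=
          div_le_div_of_nonneg_left (by positivity) hfpos hprod
      _ ≤ (C * N) ^ T * Real.exp T / (T : ℝ) ^ T := by
          rw [div_le_div_iff₀ hfpos (by positivity)]
          have := pow_le_fact T
          have h3 : 0 ≤ (C * N) ^ T := by positivity
          nlinarith [mul_le_mul_of_nonneg_left this h3]
      _ = y ^ T := by
          rw [hy, div_pow, mul_assoc, mul_pow (Real.exp 1), ← Real.exp_nat_mul, mul_one]
          ring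
  have h3 : y ^ T ≤ Real.exp (T * (2 * √y)) := by
    rw [Real.exp_nat_mul]
    exact pow_le_pow_left₀ hypos.le (self_le_exp_two_sqrt y hypos.le) T
  have h4 : (T : ℝ) * (2 * √y) ≤ ε * N := by
    have h5 : (T : ℝ) * √y = √(Real.exp 1 * C * N * T) := by
      rw [eq_comm, Real.sqrt_eq_iff_mul_self_eq (by positivity) (by positivity), eq_comm]
      have : √y * √y = y := Real.mul_self_sqrt hypos.le
      calc (T : ℝ) * √y * ((T : ℝ) * √y) = T * T * (√y * √y) := by ring
        _ = T * T * y := by rw [this]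
        _ = Real.exp 1 * C * N * T := by rw [hy]; field_simp
    have h6 : √(Real.exp 1 * C * N * T) ≤ ε * N / 2 := by
      rw [Real.sqrt_le_left (by positivity)]
      calc Real.exp 1 * C * N * T ≤ Real.exp 1 * C * N * (ε ^ 2 / (4 * Real.exp 1 * C) * N) :=
            mul_le_mul_of_nonneg_left hcard (by positivity)
        _ = (ε * N / 2) ^ 2 := by field_simp; ring
    nlinarith [h5, h6]
  rw [h1]
  exact h2.trans (h3.trans (Real.exp_le_exp.mpr h4))

/-- an upper bound for the factorial -/
theorem fact_le (k : ℕ) (hk : 1 ≤ k) :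
    (k.factorial : ℝ) ≤ Real.exp 1 * k * ((k : ℝ) ^ k * Real.exp (-k)) := by
  induction k, hk using Nat.le_induction with
  | base =>
    simp only [Nat.factorial_one, Nat.cast_one, mul_one, pow_one, one_mul]
    rw [← Real.exp_add]; simp
  | succ k hk ih =>
    have hk0 : (0 : ℝ) < k := by exact_mod_cast hk
    rw [Nat.factorial_succ]
    push_cast
    have h1 : Real.exp 1 * (k : ℝ) ^ (k + 1) ≤ ((k : ℝ) + 1) ^ (k + 1) := by
      have h2 : (k : ℝ) / (k + 1) ≤ Real.exp (-(1 / (k + 1))) := by
        have := Real.add_one_le_exp (-(1 / ((k : ℝ) + 1)))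
        have h3 : (k : ℝ) / (k + 1) = -(1 / (k + 1)) + 1 := by field_simp; ring
        rw [h3]; exact this
      have h4 : ((k : ℝ) / (k + 1)) ^ (k + 1) ≤ Real.exp (-1) := by
        calc ((k : ℝ) / (k + 1)) ^ (k + 1) ≤ (Real.exp (-(1 / (k + 1)))) ^ (k + 1) :=
              pow_le_pow_left₀ (by positivity) h2 _
          _ = Real.exp (-1) := by
              rw [← Real.exp_nat_mul]; congr 1; push_cast; field_simp
      rw [div_pow, div_le_iff₀ (by positivity)] at h4
      calc Real.exp 1 * (k : ℝ) ^ (k + 1) ≤ Real.exp 1 * (Real.exp (-1) * ((k : ℝ) + 1) ^ (k + 1)) :=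
            mul_le_mul_of_nonneg_left h4 (Real.exp_pos _).le
        _ = ((k : ℝ) + 1) ^ (k + 1) := by
            rw [← mul_assoc, ← Real.exp_add]; simp
    calc ((k : ℝ) + 1) * (k.factorial : ℝ)
        ≤ ((k : ℝ) + 1) * (Real.exp 1 * k * ((k : ℝ) ^ k * Real.exp (-k))) :=
          mul_le_mul_of_nonneg_left ih (by positivity)
      _ = ((k : ℝ) + 1) * Real.exp (-k) * (Real.exp 1 * (k : ℝ) ^ (k + 1)) := by ring
      _ ≤ ((k : ℝ) + 1) * Real.exp (-k) * ((k : ℝ) + 1) ^ (k + 1) :=
          mul_le_mul_of_nonneg_left h1 (by positivity)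
      _ = Real.exp 1 * ((k : ℝ) + 1) * (((k : ℝ) + 1) ^ (k + 1) * Real.exp (-((k : ℝ) + 1))) := by
          have : Real.exp (-(k : ℝ)) = Real.exp 1 * Real.exp (-((k : ℝ) + 1)) := by
            rw [← Real.exp_add]; congr 1; ring
          rw [this]; ring

end Pool.Agent.N793.Fab
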