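import Pool.Agent.N793.Fab.Quad

set_option autoImplicit false

/-!
# The functional `φ ↦ ∑ a n φ n` on the polynomials `n ^ k Q S n`
-/

namespace Pool.Agent.N793.Fab

open Finset Real

theorem q_expand {e : ℕ} (h : 1 ≤ e) (x : ℝ) :
    q e x = 1 - 2 * e / ((e : ℝ) ^ 2 - 1 / 4) * x + 1 / ((e : ℝ) ^ 2 - 1 / 4) * x ^ 2 := by
  unfold q
  have hD := (den_pos h).ne'
  have h1 : (x - e) ^ 2 - 1 / 4 = ((e : ℝ) ^ 2 - 1 / 4) - 2 * e * x + x ^ 2 := by ring
  rw [h1]
  generalize (e : ℝ) ^ 2 - 1 / 4 = D at hD ⊢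
  field_simp

theorem func_bound (a : ℕ → ℝ) (M ρ : ℝ) (hρ : 0 < ρ)
    (hsum : ∀ m : ℕ, Summable fun n => a n * (n : ℝ) ^ m)
    (hM : ∀ m : ℕ, |∑' n, a n * (n : ℝ) ^ m| ≤ M * m.factorial / ρ ^ m)
    (K : ℕ) (S : Finset ℕ) (hS : ∀ e ∈ S, 1 ≤ e) :
    (∀ k : ℕ, Summable fun n : ℕ => a n * ((n : ℝ) ^ k * Q S n)) ∧
    (∀ k : ℕ, k + 2 * S.card ≤ K → |∑' n : ℕ, a n * ((n : ℝ) ^ k * Q S n)|
      ≤ M * k.factorial / ρ ^ k * (∏ e ∈ S, (1 + 2 * K / (e * ρ))) ^ 2) := by
  have hM0 : 0 ≤ M := by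
    have := hM 0
    simp at this
    exact (abs_nonneg _).trans this
  induction S using Finset.induction_on with
  | empty =>
    refine ⟨fun k => ?_, fun k _ => ?_⟩
    · simpa [Q] using hsum k
    · simpa [Q] using hM k
  | insert e S he ih =>
    obtain ⟨ihs, ihb⟩ := ih fun x hx => hS x (Finset.mem_insert_of_mem hx)
    have h1 : 1 ≤ e := hS e (Finset.mem_insert_self _ _)
    have h1r : (1 : ℝ) ≤ e := by exact_mod_cast h1
    have hd := den_pos h1
    have hexp : ∀ k n : ℕ, a n * ((n : ℝ) ^ k * Q (insert e S) n) =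
        a n * ((n : ℝ) ^ k * Q S n)
          - 2 * e / ((e : ℝ) ^ 2 - 1 / 4) * (a n * ((n : ℝ) ^ (k + 1) * Q S n))
          + 1 / ((e : ℝ) ^ 2 - 1 / 4) * (a n * ((n : ℝ) ^ (k + 2) * Q S n)) := by
      intro k n
      have : Q (insert e S) (n : ℝ) = q e n * Q S n := by
        unfold Q
        rw [Finset.prod_insert he]
      rw [this, q_expand h1]
      ring
    refine ⟨fun k => ?_, fun k hk => ?_⟩
    · simp only [hexp]
      exact ((ihs k).sub ((ihs (k + 1)).mul_left _)).add ((ihs (k + 2)).mul_left _)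
    · simp only [hexp]
      rw [Finset.card_insert_of_notMem he] at hk
      rw [((ihs k).sub ((ihs (k + 1)).mul_left _)).tsum_add ((ihs (k + 2)).mul_left _),
        (ihs k).tsum_sub ((ihs (k + 1)).mul_left _), tsum_mul_left, tsum_mul_left]
      have b0 := ihb k (by omega)
      have b1 := ihb (k + 1) (by omega)
      have b2 := ihb (k + 2) (by omega)
      set P : ℝ := (∏ e ∈ S, (1 + 2 * (K : ℝ) / (e * ρ))) ^ 2 with hP
      have hP0 : 0 ≤ P := sq_nonneg _
      rw [Finset.prod_insert he, mul_pow, ← hP]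
      have hkK1 : ((k : ℝ) + 1) ≤ K := by
        have : k + 1 ≤ K := by omega
        exact_mod_cast this
      have hkK2 : ((k : ℝ) + 2) ≤ K := by
        have : k + 2 ≤ K := by omega
        exact_mod_cast this
      have hf1 : ((k + 1).factorial : ℝ) = (k + 1) * k.factorial := by
        rw [Nat.factorial_succ]; push_cast; ring
      have hf2 : ((k + 2).factorial : ℝ) = (k + 2) * (k + 1) * k.factorial := by
        rw [Nat.factorial_succ, Nat.factorial_succ]; push_cast; ring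
      set B : ℝ := M * k.factorial / ρ ^ k * P with hB
      have hB0 : 0 ≤ B := by positivity
      have e1 : M * ((k + 1).factorial : ℝ) / ρ ^ (k + 1) * P = B * ((k + 1) / ρ) := by
        rw [hf1, hB, pow_succ]; field_simp
      have e2 : M * ((k + 2).factorial : ℝ) / ρ ^ (k + 2) * P
          = B * ((k + 2) * (k + 1) / ρ ^ 2) := by
        rw [hf2, hB, pow_add]; field_simp
      rw [e1] at b1
      rw [e2] at b2
      have c1 : 2 * (e : ℝ) / ((e : ℝ) ^ 2 - 1 / 4) ≤ 4 / e := by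
        rw [div_le_div_iff₀ hd (by linarith)]
        nlinarith
      have c2 : 1 / ((e : ℝ) ^ 2 - 1 / 4) ≤ 4 / e ^ 2 := by
        rw [div_le_div_iff₀ hd (by positivity)]
        nlinarith
      have c10 : 0 ≤ 2 * (e : ℝ) / ((e : ℝ) ^ 2 - 1 / 4) := by positivity
      have c20 : 0 ≤ 1 / ((e : ℝ) ^ 2 - 1 / 4) := by positivity
      calc _ ≤ |∑' n : ℕ, a n * ((n : ℝ) ^ k * Q S n)|
            + 2 * e / ((e : ℝ) ^ 2 - 1 / 4) * |∑' n : ℕ, a n * ((n : ℝ) ^ (k + 1) * Q S n)|
            + 1 / ((e : ℝ) ^ 2 - 1 / 4) * |∑' n : ℕ, a n * ((n : ℝ) ^ (k + 2) * Q S n)| := by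
              refine (abs_add_le _ _).trans (add_le_add ((abs_sub _ _).trans ?_) ?_)
              · rw [abs_mul, abs_of_nonneg c10]
              · rw [abs_mul, abs_of_nonneg c20]
        _ ≤ B + 4 / e * (B * ((k + 1) / ρ)) + 4 / e ^ 2 * (B * ((k + 2) * (k + 1) / ρ ^ 2)) := by
              refine add_le_add (add_le_add b0 ?_) ?_
              · exact mul_le_mul c1 b1 (abs_nonneg _) (by positivity)
              · exact mul_le_mul c2 b2 (abs_nonneg _) (by positivity)
        _ ≤ B + 4 / e * (B * (K / ρ)) + 4 / e ^ 2 * (B * (K * K / ρ ^ 2)) := by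
              have i1 : ((k : ℝ) + 1) / ρ ≤ K / ρ := div_le_div_of_nonneg_right hkK1 hρ.le
              have i2 : ((k : ℝ) + 2) * (k + 1) / ρ ^ 2 ≤ K * K / ρ ^ 2 :=
                div_le_div_of_nonneg_right
                  (mul_le_mul hkK2 hkK1 (by positivity) (by positivity)) (by positivity)
              gcongr
        _ = M * k.factorial / ρ ^ k * ((1 + 2 * (K : ℝ) / (e * ρ)) ^ 2 * P) := by
              rw [hB]; field_simp; ring

end Pool.Agent.N793.Fab
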