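import Pool.Agent.N793.Fab.Chart

set_option autoImplicit false

/-!
# The criterion for half-planes
-/

namespace Pool.Agent.N793.Fab

open Filter Topology Metric Set
open scoped ComplexConjugate

/-- the Taylor coefficients at `0` -/
noncomputable def tay (F : ℂ → ℂ) (n : ℕ) : ℂ := (n.factorial : ℂ)⁻¹ * iteratedDeriv n F 0

theorem tay_real {F : ℂ → ℂ} {r : ℝ} (hr : 0 < r) (hF : DifferentiableOn ℂ F (ball 0 r))
    (hconj : ∀ z ∈ ball (0 : ℂ) r, F (conj z) = conj (F z)) :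
    (∀ n, (tay F n).im = 0) ∧
      ∀ᶠ z in 𝓝 (0 : ℂ), HasSum (fun n => (((tay F n).re : ℝ) : ℂ) * z ^ n) (F z) := by
  have h1 : ∀ z ∈ ball (0 : ℂ) r, HasSum (fun n => tay F n * z ^ n) (F z) := fun z hz =>
    taylor_sum hF hz
  have h2 : ∀ z ∈ ball (0 : ℂ) r, HasSum (fun n => conj (tay F n) * z ^ n) (F z) := by
    intro z hz
    have hz' : conj z ∈ ball (0 : ℂ) r := by
      rw [mem_ball_zero_iff] at hz ⊢
      rwa [Complex.norm_conj]
    have h3 := (Complex.hasSum_conj'.mpr (h1 _ hz'))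
    have h4 : conj (F (conj z)) = F z := by rw [hconj z hz, Complex.conj_conj]
    rw [h4] at h3
    simpa only [map_mul, map_pow, Complex.conj_conj] using h3
  have h5 : (fun n => tay F n) = fun n => conj (tay F n) := by
    apply coeff_unique (f := F)
    · filter_upwards [ball_mem_nhds (0 : ℂ) hr] with z hz using h1 z hz
    · filter_upwards [ball_mem_nhds (0 : ℂ) hr] with z hz using h2 z hz
  have h6 : ∀ n, (tay F n).im = 0 := fun n =>
    Complex.conj_eq_iff_im.mp (congrFun h5 n).symm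
  refine ⟨h6, ?_⟩
  filter_upwards [ball_mem_nhds (0 : ℂ) hr] with z hz
  have h7 : (fun n => (((tay F n).re : ℝ) : ℂ) * z ^ n) = fun n => tay F n * z ^ n := by
    funext n
    congr 1
    apply Complex.ext
    · simp
    · simp [h6 n]
  rw [h7]
  exact h1 z hz

variable {L : ℂ → ℂ} {c e α : ℝ}

/-- the function in the chart -/
noncomputable def chart (L : ℂ → ℂ) (c α : ℝ) (z : ℂ) : ℂ := L (mob c α z)

/-- holomorphic continuation from `Re s > e` to `Re s > c` -/
def Ext (L : ℂ → ℂ) (e c : ℝ) : Prop :=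
  ∃ G : ℂ → ℂ, DifferentiableOn ℂ G {s : ℂ | c < s.re} ∧ ∀ s : ℂ, e < s.re → G s = L s

/-- holomorphic continuation without zeros -/
def ExtNe (L : ℂ → ℂ) (e c : ℝ) : Prop :=
  ∃ G : ℂ → ℂ, DifferentiableOn ℂ G {s : ℂ | c < s.re} ∧ (∀ s : ℂ, c < s.re → G s ≠ 0) ∧
    ∀ s : ℂ, e < s.re → G s = L s

theorem ball_sub (hce : c < e) (heα : e < α) :
    ball ((ctr c e α : ℝ) : ℂ) (1 - ctr c e α) ⊆ ball 0 1 :=
  sub_ball (ctr_nonneg hce heα) (ctr_lt hce heα)

theorem chart_diff (hce : c < e) (heα : e < α) (hL : DifferentiableOn ℂ L {s : ℂ | e < s.re}) :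
    DifferentiableOn ℂ (chart L c α) (ball ((ctr c e α : ℝ) : ℂ) (1 - ctr c e α)) := by
  have h := ball_sub hce heα
  exact hL.comp (mob_diff.mono h) fun z hz => (mem_iff hce heα (h hz)).mpr hz

theorem chart_conj (hce : c < e) (heα : e < α)
    (hconj : ∀ s : ℂ, e < s.re → L (conj s) = conj (L s)) {z : ℂ}
    (hz : z ∈ ball ((ctr c e α : ℝ) : ℂ) (1 - ctr c e α)) :
    chart L c α (conj z) = conj (chart L c α z) := by
  unfold chart
  rw [mob_conj, hconj _ ((mem_iff hce heα (ball_sub hce heα hz)).mpr hz)]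

/-- a disc around `0` -/
theorem exists_ball (hce : c < e) (heα : e < α) : ∃ r : ℝ, 0 < r ∧
    ball (0 : ℂ) r ⊆ ball ((ctr c e α : ℝ) : ℂ) (1 - ctr c e α) := by
  obtain ⟨r, h1, h2⟩ := Metric.isOpen_iff.mp (isOpen_ball (x := ((ctr c e α : ℝ) : ℂ))
    (ε := 1 - ctr c e α)) 0 (zero_mem (ctr_nonneg hce heα) (ctr_lt hce heα))
  exact ⟨r, h1, h2⟩

theorem ext_iff (hce : c < e) (heα : e < α) :
    Ext L e c ↔ ∃ g : ℂ → ℂ, DifferentiableOn ℂ g (ball 0 1) ∧
      EqOn g (chart L c α) (ball ((ctr c e α : ℝ) : ℂ) (1 - ctr c e α)) := by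
  have hcα : c < α := hce.trans heα
  constructor
  · rintro ⟨G, hG, hGL⟩
    refine ⟨fun z => G (mob c α z), hG.comp mob_diff fun z hz => mob_gt hcα hz, fun z hz => ?_⟩
    exact hGL _ ((mem_iff hce heα (ball_sub hce heα hz)).mpr hz)
  · rintro ⟨g, hg, hgL⟩
    refine ⟨fun s => g (inv' c α s), hg.comp (inv_diff hcα) fun s hs => inv_mem hcα hs,
      fun s hs => ?_⟩
    have hs' : c < s.re := hce.trans hs
    have h1 := inv_mem hcα hs'
    have h2 : inv' c α s ∈ ball ((ctr c e α : ℝ) : ℂ) (1 - ctr c e α) := by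
      rw [← mem_iff hce heα h1, mob_inv hcα hs']
      exact hs
    simp only
    rw [hgL h2]
    unfold chart
    rw [mob_inv hcα hs']

theorem extNe_iff (hce : c < e) (heα : e < α) :
    ExtNe L e c ↔ ∃ g : ℂ → ℂ, DifferentiableOn ℂ g (ball 0 1) ∧
      (∀ z ∈ ball (0 : ℂ) 1, g z ≠ 0) ∧
      EqOn g (chart L c α) (ball ((ctr c e α : ℝ) : ℂ) (1 - ctr c e α)) := by
  have hcα : c < α := hce.trans heα
  constructor
  · rintro ⟨G, hG, hG0, hGL⟩
    refine ⟨fun z => G (mob c α z), hG.comp mob_diff fun z hz => mob_gt hcα hz,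
      fun z hz => hG0 _ (mob_gt hcα hz), fun z hz => ?_⟩
    exact hGL _ ((mem_iff hce heα (ball_sub hce heα hz)).mpr hz)
  · rintro ⟨g, hg, hg0, hgL⟩
    refine ⟨fun s => g (inv' c α s), hg.comp (inv_diff hcα) fun s hs => inv_mem hcα hs,
      fun s hs => hg0 _ (inv_mem hcα hs), fun s hs => ?_⟩
    have hs' : c < s.re := hce.trans hs
    have h1 := inv_mem hcα hs'
    have h2 : inv' c α s ∈ ball ((ctr c e α : ℝ) : ℂ) (1 - ctr c e α) := by
      rw [← mem_iff hce heα h1, mob_inv hcα hs']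
      exact hs
    simp only
    rw [hgL h2]
    unfold chart
    rw [mob_inv hcα hs']

/-- **the criterion for holomorphic continuation** -/
theorem half_iff (hce : c < e) (heα : e < α) (hL : DifferentiableOn ℂ L {s : ℂ | e < s.re})
    (hconj : ∀ s : ℂ, e < s.re → L (conj s) = conj (L s)) :
    (∀ n, (tay (chart L c α) n).im = 0) ∧
    (Ext L e c ↔ Sub fun n => (tay (chart L c α) n).re) ∧
    (Ext L e c ↔
      ∀ ε > 0, Rare {n : ℕ | (tay (chart L c α) n).re < -Real.exp (ε * n)} (dd ε)) ∧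
    (Ext L e c ↔
      ∀ ε > 0, Rare {n : ℕ | Real.exp (ε * n) < (tay (chart L c α) n).re} (dd ε)) := by
  have hp0 := ctr_nonneg hce heα
  have hp := ctr_lt hce heα
  have hd := chart_diff hce heα hL
  obtain ⟨r, hr, hball⟩ := exists_ball hce heα
  obtain ⟨h1, h2⟩ := tay_real hr (hd.mono hball) fun z hz => chart_conj hce heα hconj (hball hz)
  have h3 : Ext L e c ↔ Sub fun n => (tay (chart L c α) n).re :=
    (ext_iff hce heα).trans (sub_iff_ext hp0 hp hd h2).symm
  exact ⟨h1, h3, h3.trans (sub_iff_rare hp0 hp hd h2), h3.trans (sub_iff_rare' hp0 hp hd h2)⟩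

/-- **the criterion for holomorphic continuation without zeros** -/
theorem half_iff_ne (hce : c < e) (heα : e < α) (hL : DifferentiableOn ℂ L {s : ℂ | e < s.re})
    (hL0 : ∀ s : ℂ, e < s.re → L s ≠ 0)
    (hconj : ∀ s : ℂ, e < s.re → L (conj s) = conj (L s)) :
    (∀ n, (tay (logDeriv (chart L c α)) n).im = 0) ∧
    (ExtNe L e c ↔ Sub fun n => (tay (logDeriv (chart L c α)) n).re) ∧
    (ExtNe L e c ↔
      ∀ ε > 0, Rare {n : ℕ | (tay (logDeriv (chart L c α)) n).re < -Real.exp (ε * n)} (dd ε)) ∧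
    (ExtNe L e c ↔
      ∀ ε > 0, Rare {n : ℕ | Real.exp (ε * n) < (tay (logDeriv (chart L c α)) n).re} (dd ε)) := by
  have hp0 := ctr_nonneg hce heα
  have hp := ctr_lt hce heα
  have hd := chart_diff hce heα hL
  have hne : ∀ z ∈ ball ((ctr c e α : ℝ) : ℂ) (1 - ctr c e α), chart L c α z ≠ 0 := fun z hz =>
    hL0 _ ((mem_iff hce heα (ball_sub hce heα hz)).mpr hz)
  have hld : DifferentiableOn ℂ (logDeriv (chart L c α))
      (ball ((ctr c e α : ℝ) : ℂ) (1 - ctr c e α)) := (hd.deriv isOpen_ball).div hd hne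
  obtain ⟨r, hr, hball⟩ := exists_ball hce heα
  have hcj : ∀ z ∈ ball (0 : ℂ) r,
      logDeriv (chart L c α) (conj z) = conj (logDeriv (chart L c α) z) := by
    intro z hz
    have hz' : conj z ∈ ball (0 : ℂ) r := by
      rw [mem_ball_zero_iff] at hz ⊢
      rwa [Complex.norm_conj]
    rw [logDeriv_apply, logDeriv_apply, map_div₀, chart_conj hce heα hconj (hball hz)]
    congr 1
    have h1 : HasDerivAt (chart L c α) (deriv (chart L c α) z) z :=
      (hd.differentiableAt (isOpen_ball.mem_nhds (hball hz))).hasDerivAt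
    have h2 := h1.conj_conj
    have h3 : chart L c α =ᶠ[𝓝 (conj z)] (conj ∘ chart L c α ∘ conj) := by
      filter_upwards [isOpen_ball.mem_nhds hz'] with w hw
      have hw' : conj w ∈ ball (0 : ℂ) r := by
        rw [mem_ball_zero_iff] at hw ⊢
        rwa [Complex.norm_conj]
      simp only [Function.comp]
      rw [← chart_conj hce heα hconj (hball hw'), Complex.conj_conj]
    rw [h3.deriv_eq]
    exact h2.deriv
  obtain ⟨h1, h2⟩ := tay_real hr (hld.mono hball) hcj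
  have h3 : ExtNe L e c ↔ Sub fun n => (tay (logDeriv (chart L c α)) n).re :=
    (extNe_iff hce heα).trans (sub_iff_ext_ne hp0 hp hd hne h2).symm
  exact ⟨h1, h3, h3.trans (sub_iff_rare hp0 hp hld h2), h3.trans (sub_iff_rare' hp0 hp hld h2)⟩

/-- continuation to all discs gives an entire function -/
theorem entire_of_balls (L : ℂ → ℂ) (e : ℝ)
    (h : ∀ m : ℕ, ∃ G : ℂ → ℂ, DifferentiableOn ℂ G (ball 0 m) ∧
      ∀ s ∈ ball (0 : ℂ) m, e < s.re → G s = L s) :
    ∃ F : ℂ → ℂ, Differentiable ℂ F ∧ ∀ s : ℂ, e < s.re → F s = L s := by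
  choose G hG hGL using h
  set m0 : ℕ := ⌈|e|⌉₊ + 2 with hm0
  have heq : ∀ j k : ℕ, m0 ≤ j → j ≤ k → ∀ s ∈ ball (0 : ℂ) j, G j s = G k s := by
    intro j k hj hjk s hs
    have hsub : ball (0 : ℂ) j ⊆ ball (0 : ℂ) k := ball_subset_ball (by exact_mod_cast hjk)
    have h1 : AnalyticOnNhd ℂ (G j) (ball (0 : ℂ) j) := (hG j).analyticOnNhd isOpen_ball
    have h2 : AnalyticOnNhd ℂ (G k) (ball (0 : ℂ) j) :=
      ((hG k).mono hsub).analyticOnNhd isOpen_ball
    have hj' : |e| + 2 ≤ (j : ℝ) := by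
      have h3 := Nat.le_ceil |e|
      have h4 : ((m0 : ℕ) : ℝ) ≤ j := by exact_mod_cast hj
      rw [hm0] at h4
      push_cast at h4
      linarith
    have hz0 : ((|e| + 1 : ℝ) : ℂ) ∈ ball (0 : ℂ) j := by
      rw [mem_ball_zero_iff, Complex.norm_real, Real.norm_eq_abs,
        abs_of_nonneg (by positivity)]
      linarith
    refine h1.eqOn_of_preconnected_of_eventuallyEq h2 (convex_ball _ _).isPreconnected hz0 ?_ hs
    have h3 : {s : ℂ | e < s.re} ∈ 𝓝 ((|e| + 1 : ℝ) : ℂ) := by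
      apply (isOpen_lt continuous_const Complex.continuous_re).mem_nhds
      simp only [Set.mem_ofPred_eq, Complex.ofReal_re]
      linarith [le_abs_self e]
    filter_upwards [h3, isOpen_ball.mem_nhds hz0] with w hw hwb
    rw [hGL j w hwb hw, hGL k w (hsub hwb) hw]
  have hmem : ∀ w : ℂ, w ∈ ball (0 : ℂ) ((m0 + ⌈‖w‖⌉₊ + 1 : ℕ) : ℝ) := by
    intro w
    rw [mem_ball_zero_iff]
    have h1 := Nat.le_ceil ‖w‖
    have h2 : (0 : ℝ) ≤ m0 := Nat.cast_nonneg _
    push_cast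
    linarith
  refine ⟨fun s => G (m0 + ⌈‖s‖⌉₊ + 1) s, fun s => ?_, fun s hs => hGL _ s (hmem s) hs⟩
  set k := m0 + ⌈‖s‖⌉₊ + 2 with hk
  have h4 : (fun w : ℂ => G (m0 + ⌈‖w‖⌉₊ + 1) w) =ᶠ[𝓝 s] G k := by
    have h5 : {w : ℂ | ‖w‖ < ⌈‖s‖⌉₊ + 1} ∈ 𝓝 s := by
      apply (isOpen_lt continuous_norm continuous_const).mem_nhds
      simp only [Set.mem_ofPred_eq]
      have := Nat.le_ceil ‖s‖
      linarith
    filter_upwards [h5] with w hw
    apply heq _ _ (by omega) _ w (hmem w)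
    have : ⌈‖w‖⌉₊ ≤ ⌈‖s‖⌉₊ + 1 := by
      apply Nat.ceil_le.mpr
      push_cast
      exact le_of_lt hw
    omega
  have h6 : DifferentiableAt ℂ (G k) s := by
    apply (hG k).differentiableAt (isOpen_ball.mem_nhds _)
    have h7 := hmem s
    rw [mem_ball_zero_iff] at h7 ⊢
    rw [hk]
    push_cast at h7 ⊢
    linarith
  exact h6.congr_of_eventuallyEq h4

/-- continuation to a disc from a bound for the coefficients -/
theorem ext_disc (hce : c < e) (heα : e < α) (hL : DifferentiableOn ℂ L {s : ℂ | e < s.re})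
    (hconj : ∀ s : ℂ, e < s.re → L (conj s) = conj (L s)) {X : ℝ}
    (hX : ∀ x > X, ∃ C, ∀ n : ℕ, |(tay (chart L c α) n).re| ≤ C * Real.exp (x * n)) :
    ∃ g : ℂ → ℂ, DifferentiableOn ℂ g (ball 0 (Real.exp (-X))) ∧
      ∀ s : ℂ, e < s.re → inv' c α s ∈ ball (0 : ℂ) (Real.exp (-X)) → g (inv' c α s) = L s := by
  have hcα : c < α := hce.trans heα
  have hd := chart_diff hce heα hL
  obtain ⟨r, hr, hball⟩ := exists_ball hce heα
  obtain ⟨-, h2⟩ := tay_real hr (hd.mono hball) fun z hz => chart_conj hce heα hconj (hball hz)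
  obtain ⟨h3, h4⟩ := diff_sum hX
  refine ⟨_, h3, fun s hs hb => ?_⟩
  have hs' : c < s.re := hce.trans hs
  have h1 := inv_mem hcα hs'
  have hU : inv' c α s ∈ ball ((ctr c e α : ℝ) : ℂ) (1 - ctr c e α) := by
    rw [← mem_iff hce heα h1, mob_inv hcα hs']
    exact hs
  have h5 : AnalyticOnNhd ℂ (fun z => ∑' n : ℕ, (((tay (chart L c α) n).re : ℝ) : ℂ) * z ^ n)
      (ball ((ctr c e α : ℝ) : ℂ) (1 - ctr c e α) ∩ ball (0 : ℂ) (Real.exp (-X))) :=
    (h3.mono inter_subset_right).analyticOnNhd (isOpen_ball.inter isOpen_ball)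
  have h6 : AnalyticOnNhd ℂ (chart L c α)
      (ball ((ctr c e α : ℝ) : ℂ) (1 - ctr c e α) ∩ ball (0 : ℂ) (Real.exp (-X))) :=
    (hd.mono inter_subset_left).analyticOnNhd (isOpen_ball.inter isOpen_ball)
  have h7 := h5.eqOn_of_preconnected_of_eventuallyEq h6
    ((convex_ball _ _).inter (convex_ball _ _)).isPreconnected
    (⟨zero_mem (ctr_nonneg hce heα) (ctr_lt hce heα), mem_ball_self (Real.exp_pos _)⟩ :
      (0 : ℂ) ∈ ball ((ctr c e α : ℝ) : ℂ) (1 - ctr c e α) ∩ ball (0 : ℂ) (Real.exp (-X)))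
    (by filter_upwards [h2] with z hz using hz.tsum_eq) ⟨hU, hb⟩
  have h8 : chart L c α (inv' c α s) = L s := by
    unfold chart
    rw [mob_inv hcα hs']
  exact h7.trans h8

theorem tay_neg (F : ℂ → ℂ) (n : ℕ) : tay (fun z => -F z) n = -tay F n := by
  unfold tay
  rw [iteratedDeriv_fun_neg]
  ring

/-- **the criterion for entire functions** -/
theorem entire_iff (he : 0 < e) (heα : e < α) (hL : DifferentiableOn ℂ L {s : ℂ | e < s.re})
    (hconj : ∀ s : ℂ, e < s.re → L (conj s) = conj (L s)) :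
    (∃ F : ℂ → ℂ, Differentiable ℂ F ∧ ∀ s : ℂ, e < s.re → F s = L s) ↔
      ∃ θ : ℝ, ∃ᶠ k : ℕ in atTop,
        Rare {n : ℕ | (tay (chart L (-(k : ℝ)) α) n).re < -Real.exp (θ * n)} (dl (1 / 2)) := by
  have hke : ∀ k : ℕ, -(k : ℝ) < e := fun k => by
    have : (0 : ℝ) ≤ k := Nat.cast_nonneg k
    linarith
  constructor
  · rintro ⟨F, hF, hFL⟩
    refine ⟨1, Filter.Eventually.frequently (Eventually.of_forall fun k => ?_)⟩
    obtain ⟨-, h1, -⟩ := half_iff (hke k) heα hL hconj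
    exact rare_of_sub (h1.mp ⟨F, hF.differentiableOn, hFL⟩) 1 one_pos (dl_pos _)
  · rintro ⟨θ, hθ⟩
    set θ' := max θ 0 with hθ'
    set X := θ' + 2 with hX
    set R := Real.exp (-X) with hR
    have hR0 : 0 < R := Real.exp_pos _
    apply entire_of_balls
    intro m
    have hα : 0 < α := he.trans heα
    have hm : (0 : ℝ) ≤ m := Nat.cast_nonneg m
    obtain ⟨k, hk, hkge⟩ := (hθ.and_eventually
      (tendsto_natCast_atTop_atTop.eventually_ge_atTop ((m + α) / R + m))).exists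
    have hRm : 0 < (m + α) / R := by positivity
    have hd := chart_diff (hke k) heα hL
    obtain ⟨r, hr, hball⟩ := exists_ball (hke k) heα
    obtain ⟨-, h2⟩ := tay_real hr (hd.mono hball)
      fun z hz => chart_conj (hke k) heα hconj (hball hz)
    have h3 : Rare {n : ℕ | (tay (chart L (-(k : ℝ)) α) n).re < -Real.exp (θ' * n)}
        (dl (1 / 2)) := by
      refine hk.mono fun n hn => ?_
      simp only [Set.mem_ofPred_eq] at hn ⊢
      refine hn.trans_le (neg_le_neg (Real.exp_le_exp.mpr ?_))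
      exact mul_le_mul_of_nonneg_right (le_max_left _ _) (Nat.cast_nonneg n)
    have h4 := dl_spec (by norm_num) le_rfl (le_max_right θ 0) (η := X)
      (by rw [hX]; linarith) (by rw [hX]; linarith [le_max_right θ 0])
      (ctr_nonneg (hke k) heα) (ctr_lt (hke k) heα) hd h2 h3
    obtain ⟨g, hg, hgL⟩ := ext_disc (hke k) heα hL hconj h4
    have hkα : -(k : ℝ) < α := (hke k).trans heα
    have hmem : ∀ s ∈ ball (0 : ℂ) m, -(k : ℝ) < s.re ∧
        inv' (-(k : ℝ)) α s ∈ ball (0 : ℂ) (Real.exp (-X)) := by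
      intro s hs
      rw [mem_ball_zero_iff] at hs
      have hre : -(k : ℝ) < s.re := by
        have := (abs_le.mp (Complex.abs_re_le_norm s)).1
        linarith
      refine ⟨hre, ?_⟩
      rw [mem_ball_zero_iff]
      unfold inv'
      have hden := den_ne hkα hre
      rw [norm_div, div_lt_iff₀ (norm_pos_iff.mpr hden), ← hR]
      have h5 : ‖s - (α : ℂ)‖ ≤ m + α := by
        calc ‖s - (α : ℂ)‖ ≤ ‖s‖ + ‖(α : ℂ)‖ := norm_sub_le _ _
          _ ≤ m + α := by
              rw [Complex.norm_real, Real.norm_eq_abs, abs_of_pos hα]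
              linarith
      have h6 : 2 * (k : ℝ) + α - m ≤ ‖s + α - 2 * ((-(k : ℝ) : ℝ) : ℂ)‖ := by
        have h7 := Complex.abs_re_le_norm (s + α - 2 * ((-(k : ℝ) : ℝ) : ℂ))
        have h8 : (s + α - 2 * ((-(k : ℝ) : ℝ) : ℂ)).re = s.re + α + 2 * k := by
          simp
        rw [h8] at h7
        have h9 := le_abs_self (s.re + α + 2 * k)
        have h10 := (abs_le.mp (Complex.abs_re_le_norm s)).1
        linarith
      have h11 : m + α < R * (2 * (k : ℝ) + α - m) := by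
        have h12 : (m + α) / R < 2 * (k : ℝ) + α - m := by linarith
        rw [div_lt_iff₀ hR0] at h12
        linarith
      calc ‖s - (α : ℂ)‖ ≤ m + α := h5
        _ < R * (2 * (k : ℝ) + α - m) := h11
        _ ≤ R * ‖s + α - 2 * ((-(k : ℝ) : ℝ) : ℂ)‖ := mul_le_mul_of_nonneg_left h6 hR0.le
    refine ⟨fun s => g (inv' (-(k : ℝ)) α s), ?_, fun s hs hse => hgL s hse (hmem s hs).2⟩
    exact hg.comp ((inv_diff hkα).mono fun s hs => (hmem s hs).1) fun s hs => (hmem s hs).2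

theorem entire_iff' (he : 0 < e) (heα : e < α) (hL : DifferentiableOn ℂ L {s : ℂ | e < s.re})
    (hconj : ∀ s : ℂ, e < s.re → L (conj s) = conj (L s)) :
    (∃ F : ℂ → ℂ, Differentiable ℂ F ∧ ∀ s : ℂ, e < s.re → F s = L s) ↔
      ∃ θ : ℝ, ∃ᶠ k : ℕ in atTop,
        Rare {n : ℕ | Real.exp (θ * n) < (tay (chart L (-(k : ℝ)) α) n).re} (dl (1 / 2)) := by
  have h := entire_iff (L := fun s => -L s) he heα hL.neg (fun s hs => by
    rw [hconj s hs, map_neg])
  have h1 : ∀ k : ℕ, chart (fun s => -L s) (-(k : ℝ)) α = fun z => -chart L (-(k : ℝ)) α z :=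
    fun k => rfl
  have h2 : (∃ F : ℂ → ℂ, Differentiable ℂ F ∧ ∀ s : ℂ, e < s.re → F s = -L s) ↔
      ∃ F : ℂ → ℂ, Differentiable ℂ F ∧ ∀ s : ℂ, e < s.re → F s = L s := by
    constructor
    · rintro ⟨F, hF, hFL⟩
      exact ⟨fun s => -F s, hF.neg, fun s hs => by simp only [hFL s hs, neg_neg]⟩
    · rintro ⟨F, hF, hFL⟩
      exact ⟨fun s => -F s, hF.neg, fun s hs => by simp only [hFL s hs]⟩
  rw [← h2, h]
  simp only [h1, tay_neg, Complex.neg_re, neg_lt_neg_iff]

end Pool.Agent.N793.Fab
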