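import Pool.Agent.N793.Fab.Core
import Pool.Agent.N793.Fab.Coef

set_option autoImplicit false

/-!
# A one-sided bound for the coefficients, outside a set of density zero, implies a two-sided bound

`f` is holomorphic in a convex neighbourhood of `0` which contains the disc with diameter `(0, 1)`;
its Taylor coefficients at `0` are real and `≥ - exp (θ n)` outside a set of small upper density.
Then they are `O(exp (x n))` for every `x > η`, if `η > θ`.
-/

namespace Pool.Agent.N793.Fab

open Filter Topology Metric Set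

/-- the sum of a power series with coefficients `O(exp (x n))` for all `x > X` -/
theorem diff_sum {c : ℕ → ℝ} {X : ℝ} (hX : ∀ x : ℝ, X < x → ∃ C, ∀ n : ℕ, |c n| ≤ C * Real.exp (x * n)) :
    DifferentiableOn ℂ (fun z => ∑' n : ℕ, (c n : ℂ) * z ^ n) (ball 0 (Real.exp (-X))) ∧
    ∀ z ∈ ball (0 : ℂ) (Real.exp (-X)), Summable fun n : ℕ => (c n : ℂ) * z ^ n := by
  have key : ∀ r : ℝ, 0 < r → r < Real.exp (-X) → Summable fun n : ℕ => |c n| * r ^ n := by
    intro r hr hrX
    have h1 : X < -Real.log r := by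
      have := Real.log_lt_log hr hrX
      rw [Real.log_exp] at this
      linarith
    obtain ⟨x, hx1, hx2⟩ := exists_between h1
    obtain ⟨C, hC⟩ := hX x hx1
    have h2 : Real.exp x * r < 1 := by
      calc Real.exp x * r = Real.exp (x + Real.log r) := by rw [Real.exp_add, Real.exp_log hr]
        _ < 1 := by rw [Real.exp_lt_one_iff]; linarith
    have h3 := (summable_geometric_of_lt_one (by positivity) h2).mul_left C
    refine Summable.of_nonneg_of_le (fun n => by positivity) (fun n => ?_) h3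
    calc |c n| * r ^ n ≤ (C * Real.exp (x * n)) * r ^ n :=
          mul_le_mul_of_nonneg_right (hC n) (by positivity)
      _ = C * (Real.exp x * r) ^ n := by
          rw [mul_comm x, Real.exp_nat_mul, mul_pow]; ring
  have key2 : ∀ z : ℂ, z ∈ ball (0 : ℂ) (Real.exp (-X)) → ∃ r : ℝ, 0 < r ∧ r < Real.exp (-X) ∧
      z ∈ ball (0 : ℂ) r := by
    intro z hz
    rw [mem_ball_zero_iff] at hz
    obtain ⟨r, h1, h2⟩ := exists_between hz
    exact ⟨r, (norm_nonneg z).trans_lt h1, h2, mem_ball_zero_iff.mpr h1⟩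
  refine ⟨fun z hz => ?_, fun z hz => ?_⟩
  · obtain ⟨r, hr, hrX, hzr⟩ := key2 z hz
    have h1 : DifferentiableOn ℂ (fun z => ∑' n : ℕ, (c n : ℂ) * z ^ n) (ball 0 r) := by
      apply Complex.differentiableOn_tsum_of_summable_norm (key r hr hrX)
      · intro n
        exact ((differentiable_id.pow n).const_mul _).differentiableOn
      · exact isOpen_ball
      · intro n w hw
        rw [mem_ball_zero_iff] at hw
        rw [norm_mul, norm_pow, Complex.norm_real, Real.norm_eq_abs]
        exact mul_le_mul_of_nonneg_left (pow_le_pow_left₀ (norm_nonneg _) hw.le n) (abs_nonneg _)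
    exact (h1.differentiableAt (isOpen_ball.mem_nhds hzr)).differentiableWithinAt
  · obtain ⟨r, hr, hrX, hzr⟩ := key2 z hz
    refine Summable.of_norm_bounded (key r hr hrX) (fun n => ?_)
    rw [mem_ball_zero_iff] at hzr
    rw [norm_mul, norm_pow, Complex.norm_real, Real.norm_eq_abs]
    exact mul_le_mul_of_nonneg_left (pow_le_pow_left₀ (norm_nonneg _) hzr.le n) (abs_nonneg _)

theorem exp_lt_cos {η r : ℝ} (hr0 : 0 < r) (hr : r ≤ 1 / 2) (hη : 4 * r ≤ η) {x : ℝ}
    (hx : |x| < r) : Real.exp (-η + r) < Real.cos x := by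
  have h1 : Real.exp (-η + r) ≤ Real.exp (-(3 * r)) := Real.exp_le_exp.mpr (by linarith)
  have h2 : Real.exp (-(3 * r)) ≤ (1 + 3 * r)⁻¹ := by
    rw [Real.exp_neg]
    apply inv_anti₀ (by positivity)
    have := Real.add_one_le_exp (3 * r)
    linarith
  have h3 : 1 - x ^ 2 / 2 ≤ Real.cos x := Real.one_sub_sq_div_two_le_cos
  have h4 : x ^ 2 < r ^ 2 := by
    rw [← sq_abs]
    exact pow_lt_pow_left₀ hx (abs_nonneg _) two_ne_zero
  have h5 : (1 + 3 * r)⁻¹ < 1 - r ^ 2 / 2 := by
    rw [inv_lt_iff_one_lt_mul₀ (by positivity)]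
    nlinarith [mul_pos hr0 hr0, mul_pos (mul_pos hr0 hr0) hr0]
  linarith

/-- the two-sided bound from the one-sided bound outside a set of small upper density -/
theorem one_sided (r : ℝ) (hr0 : 0 < r) (hr : r ≤ 1 / 2) : ∃ δ : ℝ, 0 < δ ∧
    ∀ (θ η : ℝ), 0 ≤ θ → 2 * r ≤ η - θ → 4 * r ≤ η →
    ∀ (c : ℕ → ℝ) (f : ℂ → ℂ) (U : Set ℂ), IsOpen U → Convex ℝ U → (0 : ℂ) ∈ U →
      ball ((1 / 2 : ℝ) : ℂ) (1 / 2) ⊆ U → DifferentiableOn ℂ f U →
      (∀ᶠ z in 𝓝 (0 : ℂ), HasSum (fun n => (c n : ℂ) * z ^ n) (f z)) →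
      (∀ᶠ N : ℕ in atTop,
        (((Finset.Icc 1 N).filter fun n => c n < -Real.exp (θ * n)).card : ℝ) ≤ δ * N) →
      ∀ x > η, ∃ C, ∀ n : ℕ, |c n| ≤ C * Real.exp (x * n) := by
  obtain ⟨δ, hδ, hcore⟩ := core (r / 8) (r / 4) (by positivity) (by linarith)
  refine ⟨δ, hδ, fun θ η hθ0 hθη h4r c f U hU hconv h0U hball hf hc hneg => ?_⟩
  by_contra hcon
  push Not at hcon
  obtain ⟨ε0, hε0, hbad⟩ := hcon
  -- the exponents of growth
  set s : Set ℝ := {x | ∃ C, ∀ n : ℕ, |c n| ≤ C * Real.exp (x * n)} with hs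
  have hup : ∀ x ∈ s, ∀ y, x ≤ y → y ∈ s := by
    rintro x ⟨C, hC⟩ y hxy
    refine ⟨C, fun n => (hC n).trans ?_⟩
    have hC0 : 0 ≤ C := by
      have := hC 0
      simp at this
      exact (abs_nonneg _).trans this
    apply mul_le_mul_of_nonneg_left _ hC0
    apply Real.exp_le_exp.mpr
    exact mul_le_mul_of_nonneg_right hxy (Nat.cast_nonneg n)
  have hne : s.Nonempty := by
    obtain ⟨r', hr', hball⟩ := Metric.isOpen_iff.mp hU 0 h0U
    have hd : DifferentiableOn ℂ f (ball 0 r') := hf.mono hball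
    obtain ⟨M, hM0, hM⟩ := coeff_bound (r := r' / 2) (by positivity) (by linarith) hd hc
    refine ⟨-Real.log (r' / 2), M, fun n => ?_⟩
    have := hM n
    rw [Complex.norm_real, Real.norm_eq_abs] at this
    refine this.trans (le_of_eq ?_)
    rw [mul_comm (-Real.log (r' / 2)), Real.exp_nat_mul, Real.exp_neg,
      Real.exp_log (by positivity), inv_pow, div_eq_mul_inv]
  have hlb : ∀ x ∈ s, ε0 ≤ x := by
    intro x hx
    by_contra hlt
    obtain ⟨C, hC⟩ := hup x hx ε0 (not_le.mp hlt).le
    obtain ⟨n, hn⟩ := hbad C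
    exact absurd (hC n) (not_le.mpr hn)
  set X := sInf s with hX
  have hbdd : BddBelow s := ⟨ε0, hlb⟩
  have hXη : η < X := lt_of_lt_of_le hε0 (le_csInf hne hlb)
  have hX0 : 0 < X := by linarith
  have hXup : ∀ x : ℝ, X < x → ∃ C, ∀ n : ℕ, |c n| ≤ C * Real.exp (x * n) := by
    intro x hx
    obtain ⟨y, hy, hyx⟩ := exists_lt_of_csInf_lt hne hx
    exact hup y hy x hyx.le
  have hXlow : ∀ x : ℝ, x < X → ∃ᶠ n : ℕ in atTop, Real.exp (x * n) ≤ |c n| := by
    intro x hx
    by_contra hev
    rw [not_frequently, eventually_atTop] at hev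
    obtain ⟨N, hN⟩ := hev
    have hxs : x ∉ s := fun h => absurd (csInf_le hbdd h) (not_le.mpr hx)
    apply hxs
    refine ⟨1 + ∑ i ∈ Finset.range N, |c i| * Real.exp (-(x * i)), fun n => ?_⟩
    have hsum0 : 0 ≤ ∑ i ∈ Finset.range N, |c i| * Real.exp (-(x * i)) :=
      Finset.sum_nonneg fun i _ => by positivity
    by_cases hnN : n < N
    · have h1 : |c n| * Real.exp (-(x * n)) ≤ ∑ i ∈ Finset.range N, |c i| * Real.exp (-(x * i)) :=
        Finset.single_le_sum (f := fun i : ℕ => |c i| * Real.exp (-(x * i)))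
          (fun i _ => by positivity) (Finset.mem_range.mpr hnN)
      have h2 : |c n| = |c n| * Real.exp (-(x * n)) * Real.exp (x * n) := by
        rw [mul_assoc, ← Real.exp_add, neg_add_cancel, Real.exp_zero, mul_one]
      rw [h2]
      exact mul_le_mul_of_nonneg_right (by linarith) (Real.exp_pos _).le
    · have h1 := hN n (not_lt.mp hnN)
      rw [not_le] at h1
      calc |c n| ≤ 1 * Real.exp (x * n) := by rw [one_mul]; exact h1.le
        _ ≤ _ := mul_le_mul_of_nonneg_right (by linarith) (Real.exp_pos _).le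
  -- the function with coefficients `b n = c n + exp (θ n)`
  have hθX : θ < X := by linarith
  set R := Real.exp (-X) with hR
  have hR0 : 0 < R := Real.exp_pos _
  obtain ⟨hdiff, hsummable⟩ := diff_sum hXup
  rw [← hR] at hdiff hsummable
  have hfeq : ∀ z ∈ U ∩ ball (0 : ℂ) R, f z = ∑' n : ℕ, (c n : ℂ) * z ^ n := by
    have hopen : IsOpen (U ∩ ball (0 : ℂ) R) := hU.inter isOpen_ball
    have hpre : IsPreconnected (U ∩ ball (0 : ℂ) R) :=
      (hconv.inter (convex_ball 0 R)).isPreconnected
    have h1 : AnalyticOnNhd ℂ f (U ∩ ball (0 : ℂ) R) :=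
      (hf.mono inter_subset_left).analyticOnNhd hopen
    have h2 : AnalyticOnNhd ℂ (fun z => ∑' n : ℕ, (c n : ℂ) * z ^ n) (U ∩ ball (0 : ℂ) R) :=
      (hdiff.mono inter_subset_right).analyticOnNhd hopen
    have h3 : f =ᶠ[𝓝 0] fun z => ∑' n : ℕ, (c n : ℂ) * z ^ n := by
      filter_upwards [hc] with z hz
      exact hz.tsum_eq.symm
    intro z hz
    exact h1.eqOn_of_preconnected_of_eventuallyEq h2 hpre
      (show (0 : ℂ) ∈ U ∩ ball (0 : ℂ) R from ⟨h0U, mem_ball_self hR0⟩) h3 hz
  set ρ := r / 4 with hρ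
  have hρ0 : 0 < ρ := by positivity
  set lam := r / 8 with hlam
  have hlam0 : 0 < lam := by positivity
  set w : ℂ → ℂ := fun t => Complex.exp (t - ((X + lam : ℝ) : ℂ)) with hw
  have hwre : ∀ t ∈ ball (0 : ℂ) (2 * ρ), ‖w t‖ < Real.exp (-X + r) := by
    intro t ht
    rw [mem_ball_zero_iff] at ht
    simp only [hw]
    rw [Complex.norm_exp]
    apply Real.exp_lt_exp.mpr
    have h2 : t.re ≤ ‖t‖ := Complex.re_le_norm t
    rw [Complex.sub_re, Complex.ofReal_re]
    linarith
  have hwU : ∀ t ∈ ball (0 : ℂ) (2 * ρ), w t ∈ U := by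
    intro t ht
    apply hball
    have h1 := hwre t ht
    rw [mem_ball_zero_iff] at ht
    have him : |t.im| < r := by
      have := Complex.abs_im_le_norm t
      linarith
    have h2 : ‖w t‖ < Real.cos t.im := by
      refine h1.trans ((Real.exp_lt_exp.mpr (by linarith)).trans (exp_lt_cos hr0 hr h4r him))
    have h3 : (w t).re = ‖w t‖ * Real.cos t.im := by
      simp only [hw]
      rw [Complex.norm_exp, Complex.exp_re]
      congr 2
      simp
    have h4 : 0 < ‖w t‖ := by
      simp only [hw]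
      rw [Complex.norm_exp]
      exact Real.exp_pos _
    have h5 : Complex.normSq (w t) < (w t).re := by
      rw [h3, Complex.normSq_eq_norm_sq, sq]
      exact mul_lt_mul_of_pos_left h2 h4
    rw [mem_ball, Complex.dist_eq]
    have h6 : ‖w t - ((1 / 2 : ℝ) : ℂ)‖ ^ 2 < (1 / 2) ^ 2 := by
      rw [← Complex.normSq_eq_norm_sq, Complex.normSq_sub]
      simp only [Complex.normSq_ofReal, Complex.conj_ofReal, Complex.mul_re, Complex.ofReal_re,
        Complex.ofReal_im, mul_zero, sub_zero]
      linarith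
    exact lt_of_pow_lt_pow_left₀ 2 (by norm_num) h6
  have hwθ : ∀ t ∈ ball (0 : ℂ) (2 * ρ), ‖w t‖ < Real.exp (-θ) := by
    intro t ht
    refine (hwre t ht).trans_le (Real.exp_le_exp.mpr (by linarith))
  have hden : ∀ z : ℂ, ‖z‖ < Real.exp (-θ) → ‖(Real.exp θ : ℂ) * z‖ < 1 := by
    intro z hz
    rw [norm_mul, Complex.norm_real, Real.norm_eq_abs, abs_of_pos (Real.exp_pos _)]
    calc Real.exp θ * ‖z‖ < Real.exp θ * Real.exp (-θ) :=
          mul_lt_mul_of_pos_left hz (Real.exp_pos _)
      _ = 1 := by rw [← Real.exp_add]; simp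
  set F : ℂ → ℂ := fun t => f (w t) + (1 - (Real.exp θ : ℂ) * w t)⁻¹ with hF
  have hwd : Differentiable ℂ w := by
    simp only [hw]
    fun_prop
  have hFd : DifferentiableOn ℂ F (ball 0 (2 * ρ)) := by
    apply DifferentiableOn.add
    · exact hf.comp hwd.differentiableOn hwU
    · apply DifferentiableOn.inv
      · exact (differentiable_const _).differentiableOn.sub
          ((hwd.const_mul _).differentiableOn)
      · intro t ht h0
        have h1 := hden (w t) (hwθ t ht)
        have h2 : (Real.exp θ : ℂ) * w t = 1 := (sub_eq_zero.mp h0).symm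
        rw [h2] at h1
        simp at h1
  -- the coefficients of the exponential sum
  set a : ℕ → ℝ := fun n => (c n + Real.exp (θ * n)) * Real.exp (-((X + lam) * n)) with ha
  have haup : ∀ ε > 0, ∃ C, ∀ n : ℕ, |a n| ≤ C * Real.exp ((ε - lam) * n) := by
    intro ε hε
    obtain ⟨C, hC⟩ := hXup (X + ε) (by linarith)
    refine ⟨C + 1, fun n => ?_⟩
    simp only [ha]
    rw [abs_mul, abs_of_pos (Real.exp_pos _)]
    have h1 : |c n + Real.exp (θ * n)| ≤ (C + 1) * Real.exp ((X + ε) * n) := by
      calc |c n + Real.exp (θ * n)| ≤ |c n| + |Real.exp (θ * n)| := abs_add_le _ _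
        _ ≤ C * Real.exp ((X + ε) * n) + Real.exp ((X + ε) * n) := by
            refine add_le_add (hC n) ?_
            rw [abs_of_pos (Real.exp_pos _)]
            apply Real.exp_le_exp.mpr
            exact mul_le_mul_of_nonneg_right (by linarith) (Nat.cast_nonneg n)
        _ = (C + 1) * Real.exp ((X + ε) * n) := by ring
    calc |c n + Real.exp (θ * n)| * Real.exp (-((X + lam) * n))
        ≤ ((C + 1) * Real.exp ((X + ε) * n)) * Real.exp (-((X + lam) * n)) :=
          mul_le_mul_of_nonneg_right h1 (Real.exp_pos _).le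
      _ = (C + 1) * Real.exp ((ε - lam) * n) := by
          rw [mul_assoc, ← Real.exp_add]; congr 2; ring
  have halow : ∀ ε > 0, ∃ᶠ n : ℕ in atTop, Real.exp (-((lam + ε) * n)) ≤ |a n| := by
    intro ε hε
    set e := min ε (X - θ) with he
    have he0 : 0 < e := lt_min hε (by linarith)
    have heε : e ≤ ε := min_le_left _ _
    have heθ : e ≤ X - θ := min_le_right _ _
    have h1 := hXlow (X - e / 2) (by linarith)
    have h2 : ∀ᶠ n : ℕ in atTop, Real.log 2 / (e / 2) ≤ n :=
      tendsto_natCast_atTop_atTop.eventually_ge_atTop _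
    refine (h1.and_eventually h2).mono ?_
    rintro n ⟨hn1, hn2⟩
    rw [div_le_iff₀ (by positivity)] at hn2
    have hn0 : (0 : ℝ) ≤ n := Nat.cast_nonneg n
    have h3 : 2 ≤ Real.exp (e / 2 * n) := by
      calc (2 : ℝ) = Real.exp (Real.log 2) := (Real.exp_log (by norm_num)).symm
        _ ≤ _ := Real.exp_le_exp.mpr (by linarith)
    have h4 : Real.exp ((X - e / 2) * n) = Real.exp ((X - e) * n) * Real.exp (e / 2 * n) := by
      rw [← Real.exp_add]; congr 1; ring
    have h5 : Real.exp (θ * n) ≤ Real.exp ((X - e) * n) := by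
      apply Real.exp_le_exp.mpr
      apply mul_le_mul_of_nonneg_right _ hn0
      linarith
    have h6 : Real.exp ((X - e) * n) ≤ |c n + Real.exp (θ * n)| := by
      have h7 : |c n| - |Real.exp (θ * n)| ≤ |c n + Real.exp (θ * n)| := by
        have h8 : |c n| ≤ |c n + Real.exp (θ * n)| + |Real.exp (θ * n)| := by
          calc |c n| = |(c n + Real.exp (θ * n)) - Real.exp (θ * n)| := by ring_nf
            _ ≤ _ := abs_sub _ _
        linarith
      rw [abs_of_pos (Real.exp_pos (θ * n))] at h7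
      rw [h4] at hn1
      have h9 : Real.exp ((X - e) * n) * 2 ≤ Real.exp ((X - e) * n) * Real.exp (e / 2 * n) :=
        mul_le_mul_of_nonneg_left h3 (Real.exp_pos _).le
      linarith
    simp only [ha]
    rw [abs_mul, abs_of_pos (Real.exp_pos (-((X + lam) * n)))]
    calc Real.exp (-((lam + ε) * n)) ≤ Real.exp ((X - e) * n) * Real.exp (-((X + lam) * n)) := by
          rw [← Real.exp_add]
          apply Real.exp_le_exp.mpr
          have h10 : e * n ≤ ε * n := mul_le_mul_of_nonneg_right heε hn0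
          have h11 : (X - e) * n + -((X + lam) * n) = -(lam * n) - e * n := by ring
          rw [h11]
          linarith [add_mul lam ε (n : ℝ)]
      _ ≤ _ := mul_le_mul_of_nonneg_right h6 (Real.exp_pos _).le
  have haneg : ∀ᶠ N : ℕ in atTop,
      (((Finset.Icc 1 N).filter fun n => a n < 0).card : ℝ) ≤ δ * N := by
    filter_upwards [hneg] with N hN
    refine le_trans ?_ hN
    have h2 : ((Finset.Icc 1 N).filter fun n => a n < 0) ⊆
        (Finset.Icc 1 N).filter fun n => c n < -Real.exp (θ * n) := by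
      intro n hn
      rw [Finset.mem_filter] at hn ⊢
      refine ⟨hn.1, ?_⟩
      have h3 : c n + Real.exp (θ * n) < 0 := by
        have h4 := hn.2
        simp only [ha] at h4
        by_contra h5
        exact absurd h4 (not_lt.mpr (mul_nonneg (not_lt.mp h5) (Real.exp_pos _).le))
      linarith
    exact_mod_cast Finset.card_le_card h2
  have hasumm : Summable fun n : ℕ => |a n| * Real.exp (n * (lam / 2)) := by
    obtain ⟨C, hC⟩ := haup (lam / 4) (by positivity)
    have h1 : Real.exp (-(lam / 4)) < 1 := by rw [Real.exp_lt_one_iff]; linarith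
    have h2 := (summable_geometric_of_lt_one (Real.exp_pos _).le h1).mul_left C
    refine Summable.of_nonneg_of_le (fun n => by positivity) (fun n => ?_) h2
    calc |a n| * Real.exp (n * (lam / 2))
        ≤ (C * Real.exp ((lam / 4 - lam) * n)) * Real.exp (n * (lam / 2)) :=
          mul_le_mul_of_nonneg_right (hC n) (Real.exp_pos _).le
      _ = C * Real.exp (-(lam / 4)) ^ n := by
          rw [mul_assoc, ← Real.exp_add, ← Real.exp_nat_mul]
          congr 2
          ring
  have hFsum : ∀ᶠ t in 𝓝 (0 : ℂ), HasSum (fun m : ℕ =>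
      (((∑' n : ℕ, a n * (n : ℝ) ^ m : ℝ) : ℂ) / (m.factorial : ℂ)) * t ^ m) (F t) := by
    filter_upwards [ball_mem_nhds (0 : ℂ) (show 0 < lam / 2 by positivity)] with t ht
    rw [mem_ball_zero_iff] at ht
    have h1 := exp_sum (show 0 < lam / 2 by positivity) hasumm ht.le
    have ht2 : t ∈ ball (0 : ℂ) (2 * ρ) := by
      rw [mem_ball_zero_iff]
      linarith
    have hwR : w t ∈ ball (0 : ℂ) R := by
      rw [mem_ball_zero_iff]
      simp only [hw]
      rw [Complex.norm_exp, hR]
      apply Real.exp_lt_exp.mpr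
      have h2 : t.re ≤ ‖t‖ := Complex.re_le_norm t
      rw [Complex.sub_re, Complex.ofReal_re]
      linarith
    have h2 : F t = ∑' n : ℕ, (a n : ℂ) * Complex.exp (n * t) := by
      have h3 : HasSum (fun n : ℕ => (c n : ℂ) * w t ^ n) (f (w t)) := by
        rw [hfeq (w t) ⟨hwU t ht2, hwR⟩]
        exact (hsummable (w t) hwR).hasSum
      have h4 : HasSum (fun n : ℕ => ((Real.exp θ : ℂ) * w t) ^ n)
          (1 - (Real.exp θ : ℂ) * w t)⁻¹ :=
        hasSum_geometric_of_norm_lt_one (hden (w t) (hwθ t ht2))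
      have h5 := h3.add h4
      have h50 : F t = f (w t) + (1 - (Real.exp θ : ℂ) * w t)⁻¹ := rfl
      rw [h50, ← h5.tsum_eq]
      apply tsum_congr
      intro n
      simp only [ha, hw]
      have h6 : Complex.exp (t - ((X + lam : ℝ) : ℂ)) ^ n =
          ((Real.exp (-((X + lam) * n)) : ℝ) : ℂ) * Complex.exp (n * t) := by
        rw [← Complex.exp_nat_mul, Complex.ofReal_exp, ← Complex.exp_add]
        congr 1
        push_cast
        ring
      have h7 : (Real.exp θ : ℂ) ^ n = ((Real.exp (θ * n) : ℝ) : ℂ) := by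
        rw [mul_comm, Real.exp_nat_mul]
        push_cast
        rfl
      rw [mul_pow, h7, h6]
      push_cast
      ring
    rw [h2]
    exact h1
  obtain ⟨M, hM0, hM⟩ := coeff_bound hρ0 (by linarith : ρ < 2 * ρ) hFd hFsum
  refine hcore a M haup halow haneg (fun m => ?_)
  have h1 := hM m
  have hp : (0 : ℝ) < m.factorial := by exact_mod_cast Nat.factorial_pos m
  rw [norm_div, Complex.norm_real, Complex.norm_natCast, Real.norm_eq_abs, div_le_iff₀ hp] at h1
  calc |∑' n : ℕ, a n * (n : ℝ) ^ m| ≤ M / ρ ^ m * m.factorial := h1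
    _ = M * m.factorial / ρ ^ m := by ring

end Pool.Agent.N793.Fab
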