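import Pool.Agent.N793.Fab.Fact

set_option autoImplicit false

/-!
# A polynomial which is negative exactly at given integers
-/

namespace Pool.Agent.N793.Fab

open Finset Real

/-- the quadratic polynomial with zeros `e - 1/2`, `e + 1/2` and value one at zero -/
noncomputable def q (e : ℕ) (x : ℝ) : ℝ := ((x - e) ^ 2 - 1 / 4) / ((e : ℝ) ^ 2 - 1 / 4)

/-- the product -/
noncomputable def Q (S : Finset ℕ) (x : ℝ) : ℝ := ∏ e ∈ S, q e x

theorem den_pos {e : ℕ} (h : 1 ≤ e) : 0 < (e : ℝ) ^ 2 - 1 / 4 := by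
  have : (1 : ℝ) ≤ e := by exact_mod_cast h
  nlinarith

theorem q_neg {e : ℕ} (h : 1 ≤ e) : q e e < 0 := by
  unfold q
  apply div_neg_of_neg_of_pos _ (den_pos h)
  simp

theorem sq_ge_one {n e : ℕ} (h : n ≠ e) : 1 ≤ ((n : ℝ) - e) ^ 2 := by
  have h1 : (1 : ℤ) ≤ |(n : ℤ) - e| := by
    apply Int.one_le_abs
    omega
  have h2 : (1 : ℝ) ≤ |(n : ℝ) - e| := by exact_mod_cast h1
  rw [← sq_abs]
  nlinarith

theorem q_pos {n e : ℕ} (h : 1 ≤ e) (hn : n ≠ e) : 0 < q e n := by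
  unfold q
  apply div_pos _ (den_pos h)
  have := sq_ge_one hn
  linarith

theorem Q_pos {S : Finset ℕ} (hS : ∀ e ∈ S, 1 ≤ e) {n : ℕ} (hn : n ∉ S) : 0 < Q S n := by
  unfold Q
  apply Finset.prod_pos
  intro e he
  exact q_pos (hS e he) (fun h => hn (h ▸ he))

theorem Q_neg {S : Finset ℕ} (hS : ∀ e ∈ S, 1 ≤ e) {n : ℕ} (hn : n ∈ S) : Q S n < 0 := by
  unfold Q
  rw [← Finset.mul_prod_erase S _ hn]
  apply mul_neg_of_neg_of_pos (q_neg (hS n hn))
  apply Finset.prod_pos
  intro e he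
  rw [Finset.mem_erase] at he
  exact q_pos (hS e he.2) (Ne.symm he.1)

/-- the upper bound -/
theorem Q_le {S : Finset ℕ} (n : ℕ) (hn : 1 ≤ n) (hS : ∀ e ∈ S, 1 ≤ e) (hle : ∀ e ∈ S, e ≤ n) :
    |Q S n| ≤ (∏ e ∈ S, (2 * (n : ℝ) / e)) ^ 2 := by
  unfold Q
  rw [Finset.abs_prod, ← Finset.prod_pow]
  apply Finset.prod_le_prod (fun e _ => abs_nonneg _)
  intro e he
  have h1 : (1 : ℝ) ≤ e := by exact_mod_cast hS e he
  have hn1 : (1 : ℝ) ≤ n := by exact_mod_cast hn
  have hen : (e : ℝ) ≤ n := by exact_mod_cast hle e he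
  unfold q
  rw [abs_div, abs_of_pos (den_pos (hS e he)), div_le_iff₀ (den_pos (hS e he))]
  have h2 : |((n : ℝ) - e) ^ 2 - 1 / 4| ≤ (n : ℝ) ^ 2 := by
    rw [abs_le]
    constructor
    · nlinarith [sq_nonneg ((n : ℝ) - e)]
    · nlinarith
  refine h2.trans ?_
  rw [div_pow, div_mul_eq_mul_div, le_div_iff₀ (by positivity)]
  have h3 : (1 : ℝ) ≤ (e : ℝ) ^ 2 := by nlinarith
  nlinarith [mul_le_mul_of_nonneg_left h3 (sq_nonneg (n : ℝ))]

/-- the distances used in the lower bound -/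
noncomputable def gd (N : ℝ) (n e : ℕ) : ℝ :=
  if e < n then 2 * N / ((n - e : ℕ) : ℝ) else if n < e then 2 * N / ((e - n : ℕ) : ℝ) else 2 * N

theorem q_gd {N n e : ℕ} (h1 : 1 ≤ e) (h2 : e ≤ N) (hn : 1 ≤ n) :
    1 ≤ |q e n| * (gd N n e) ^ 2 := by
  have he : (1 : ℝ) ≤ e := by exact_mod_cast h1
  have heN : (e : ℝ) ≤ N := by exact_mod_cast h2
  have hN : (0 : ℝ) < N := by linarith
  unfold q
  rw [abs_div, abs_of_pos (den_pos h1), div_mul_eq_mul_div, le_div_iff₀ (den_pos h1), one_mul]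
  have hden : (e : ℝ) ^ 2 - 1 / 4 ≤ (N : ℝ) ^ 2 := by nlinarith
  refine hden.trans ?_
  unfold gd
  have key : ∀ d : ℝ, 1 ≤ d → d ^ 2 = ((n : ℝ) - e) ^ 2 →
      (N : ℝ) ^ 2 ≤ |((n : ℝ) - e) ^ 2 - 1 / 4| * (2 * N / d) ^ 2 := by
    intro d hd hd2
    rw [← hd2, abs_of_pos (by nlinarith), div_pow, mul_div_assoc', le_div_iff₀ (by positivity)]
    have : d ^ 2 ≤ (d ^ 2 - 1 / 4) * 4 := by nlinarith
    nlinarith [mul_le_mul_of_nonneg_left this (sq_nonneg (N : ℝ))]
  split_ifs with ha hb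
  · apply key
    · have : 1 ≤ n - e := by omega
      exact_mod_cast this
    · rw [Nat.cast_sub ha.le]
  · apply key
    · have : 1 ≤ e - n := by omega
      exact_mod_cast this
    · rw [Nat.cast_sub hb.le]; ring
  · have : n = e := by omega
    subst this
    simp only [sub_self]
    rw [abs_of_neg (by norm_num)]
    nlinarith

theorem prod_gd {δ ε : ℝ} {N : ℕ}
    (hδ : ∀ (s : Finset ℕ), (∀ e ∈ s, 1 ≤ e) → (s.card : ℝ) ≤ δ * N →
      ∏ e ∈ s, (2 * (N : ℝ) / e) ≤ Real.exp (ε * N))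
    (hε : 0 ≤ ε)
    (S : Finset ℕ) (hS : (S.card : ℝ) ≤ δ * N) (n : ℕ) (hN : 1 ≤ N) :
    ∏ e ∈ S, gd N n e ≤ Real.exp (ε * N) * Real.exp (ε * N) * (2 * N) := by
  have hN1 : (1 : ℝ) ≤ N := by exact_mod_cast hN
  have hg0 : ∀ e, 0 < gd N n e := by
    intro e
    unfold gd
    split_ifs with ha hb
    · have : (0 : ℝ) < ((n - e : ℕ) : ℝ) := by exact_mod_cast Nat.sub_pos_of_lt ha
      positivity
    · have : (0 : ℝ) < ((e - n : ℕ) : ℝ) := by exact_mod_cast Nat.sub_pos_of_lt hb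
      positivity
    · positivity
  rw [← Finset.prod_filter_mul_prod_filter_not S (fun e => e < n),
    ← Finset.prod_filter_mul_prod_filter_not (S.filter (fun e => ¬ e < n)) (fun e => n < e)]
  have h1 : ∏ e ∈ S.filter (fun e => e < n), gd N n e ≤ Real.exp (ε * N) := by
    have hinj : Set.InjOn (fun e => n - e) (S.filter (fun e => e < n) : Finset ℕ) := by
      intro a ha b hb hab
      simp only [Finset.coe_filter, Set.mem_setOf_eq] at ha hb
      have : n - a = n - b := hab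
      omega
    have h2 := hδ ((S.filter (fun e => e < n)).image (fun e => n - e)) (by
      intro e he
      simp only [Finset.mem_image, Finset.mem_filter] at he
      obtain ⟨a, ha, rfl⟩ := he
      omega) (by
      refine le_trans ?_ hS
      have := (Finset.card_image_le (s := S.filter (fun e => e < n)) (f := fun e => n - e)).trans
        (Finset.card_filter_le S (fun e => e < n))
      exact_mod_cast this)
    rw [Finset.prod_image hinj] at h2
    refine le_of_eq_of_le ?_ h2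
    apply Finset.prod_congr rfl
    intro e he
    rw [Finset.mem_filter] at he
    unfold gd
    rw [if_pos he.2]
  have h2 : ∏ e ∈ (S.filter (fun e => ¬ e < n)).filter (fun e => n < e), gd N n e
      ≤ Real.exp (ε * N) := by
    have hinj : Set.InjOn (fun e => e - n)
        ((S.filter (fun e => ¬ e < n)).filter (fun e => n < e) : Finset ℕ) := by
      intro a ha b hb hab
      simp only [Finset.coe_filter, Finset.mem_filter, Set.mem_setOf_eq] at ha hb
      have : a - n = b - n := hab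
      omega
    have h2 := hδ (((S.filter (fun e => ¬ e < n)).filter (fun e => n < e)).image
      (fun e => e - n)) (by
      intro e he
      simp only [Finset.mem_image, Finset.mem_filter] at he
      obtain ⟨a, ha, rfl⟩ := he
      omega) (by
      refine le_trans ?_ hS
      have := ((Finset.card_image_le
        (s := (S.filter (fun e => ¬ e < n)).filter (fun e => n < e)) (f := fun e => e - n)).trans
        (Finset.card_filter_le _ (fun e => n < e))).trans
        (Finset.card_filter_le S (fun e => ¬ e < n))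
      exact_mod_cast this)
    rw [Finset.prod_image hinj] at h2
    refine le_of_eq_of_le ?_ h2
    apply Finset.prod_congr rfl
    intro e he
    rw [Finset.mem_filter] at he
    unfold gd
    rw [if_neg (by omega), if_pos he.2]
  have h3 : ∏ e ∈ (S.filter (fun e => ¬ e < n)).filter (fun e => ¬ n < e), gd N n e
      ≤ 2 * N := by
    have hsub : (S.filter (fun e => ¬ e < n)).filter (fun e => ¬ n < e) ⊆ {n} := by
      intro e he
      simp only [Finset.mem_filter, Finset.mem_singleton] at he ⊢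
      omega
    rcases Finset.subset_singleton_iff.mp hsub with h | h
    · rw [h, Finset.prod_empty]; linarith
    · rw [h, Finset.prod_singleton]
      unfold gd
      simp
  have hp1 : 0 ≤ ∏ e ∈ S.filter (fun e => e < n), gd N n e :=
    Finset.prod_nonneg fun e _ => (hg0 e).le
  have hp2 : 0 ≤ ∏ e ∈ (S.filter (fun e => ¬ e < n)).filter (fun e => n < e), gd N n e :=
    Finset.prod_nonneg fun e _ => (hg0 e).le
  have hp3 : 0 ≤ ∏ e ∈ (S.filter (fun e => ¬ e < n)).filter (fun e => ¬ n < e), gd N n e :=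
    Finset.prod_nonneg fun e _ => (hg0 e).le
  calc _ ≤ Real.exp (ε * N) * (Real.exp (ε * N) * (2 * N)) :=
        mul_le_mul h1 (mul_le_mul h2 h3 hp3 (Real.exp_pos _).le) (mul_nonneg hp2 hp3)
          (Real.exp_pos _).le
    _ = _ := by ring

/-- the lower bound -/
theorem le_Q {δ ε : ℝ} {N : ℕ}
    (hδ : ∀ (s : Finset ℕ), (∀ e ∈ s, 1 ≤ e) → (s.card : ℝ) ≤ δ * N →
      ∏ e ∈ s, (2 * (N : ℝ) / e) ≤ Real.exp (ε * N))
    (hε : 0 ≤ ε)
    (S : Finset ℕ) (hS : (S.card : ℝ) ≤ δ * N) (hS1 : ∀ e ∈ S, 1 ≤ e) (hSN : ∀ e ∈ S, e ≤ N)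
    (n : ℕ) (hn : 1 ≤ n) (hN : 1 ≤ N) :
    Real.exp (-(4 * ε * N)) / (4 * (N : ℝ) ^ 2) ≤ |Q S n| := by
  have hN1 : (1 : ℝ) ≤ N := by exact_mod_cast hN
  have hG := prod_gd hδ hε S hS n hN
  have hG0 : 0 ≤ ∏ e ∈ S, gd N n e := by
    apply Finset.prod_nonneg
    intro e _
    unfold gd
    split_ifs <;> positivity
  have h1 : 1 ≤ |Q S n| * (∏ e ∈ S, gd N n e) ^ 2 := by
    unfold Q
    rw [Finset.abs_prod, ← Finset.prod_pow, ← Finset.prod_mul_distrib]
    have : ∏ e ∈ S, (1 : ℝ) ≤ ∏ e ∈ S, |q e n| * gd N n e ^ 2 := by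
      apply Finset.prod_le_prod (fun _ _ => zero_le_one)
      intro e he
      exact q_gd (hS1 e he) (hSN e he) hn
    simpa using this
  have h2 : (∏ e ∈ S, gd N n e) ^ 2 ≤ Real.exp (4 * ε * N) * (4 * (N : ℝ) ^ 2) := by
    calc (∏ e ∈ S, gd N n e) ^ 2 ≤ (Real.exp (ε * N) * Real.exp (ε * N) * (2 * N)) ^ 2 :=
          pow_le_pow_left₀ hG0 hG 2
      _ = Real.exp (4 * ε * N) * (4 * (N : ℝ) ^ 2) := by
          rw [mul_pow, ← Real.exp_add, ← Real.exp_nat_mul]
          ring_nf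
  rw [Real.exp_neg, div_le_iff₀ (by positivity), inv_le_iff_one_le_mul₀ (Real.exp_pos _)]
  calc 1 ≤ |Q S n| * (∏ e ∈ S, gd N n e) ^ 2 := h1
    _ ≤ |Q S n| * (Real.exp (4 * ε * N) * (4 * (N : ℝ) ^ 2)) :=
        mul_le_mul_of_nonneg_left h2 (abs_nonneg _)
    _ = _ := by ring

end Pool.Agent.N793.Fab
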